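import Mathlib

/-!
Definitions: classes of finite semigroups, Birkhoff operators, kernels, decidable classes.
-/

set_option autoImplicit false

namespace Pool.Agent.Lib.MP_88bd66_lc

/-- A finite (nonempty) semigroup. -/
structure FinSgrp : Type 1 where
  carrier : Type
  [sgrp : Semigroup carrier]
  [finite : Finite carrier]
  [nonempty : Nonempty carrier]

attribute [instance] FinSgrp.sgrp FinSgrp.finite FinSgrp.nonempty

/-- Homomorphic images of members of `C`. -/
def opH (C : Set FinSgrp) : Set FinSgrp :=
  {T | ∃ S ∈ C, ∃ f : S.carrier →ₙ* T.carrier, Function.Surjective f}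

/-- Semigroups embeddable into members of `C`. -/
def opS (C : Set FinSgrp) : Set FinSgrp :=
  {T | ∃ S ∈ C, ∃ f : T.carrier →ₙ* S.carrier, Function.Injective f}

/-- Semigroups isomorphic to direct products of `n ≥ 1` members of `C`. -/
def opP (C : Set FinSgrp) : Set FinSgrp :=
  {T | ∃ n : ℕ, 1 ≤ n ∧ ∃ S : Fin n → FinSgrp, (∀ i, S i ∈ C) ∧
    Nonempty (T.carrier ≃* ∀ i, (S i).carrier)}

/-- The kernel of `K Φ`: the members of `K Φ` whose generated pseudovariety lies in `K Φ`. -/
def Cor (K : Set FinSgrp → Set FinSgrp) (Φ : Set FinSgrp) : Set FinSgrp :=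
  {M | M ∈ K Φ ∧ opH (opS (opP {M})) ⊆ K Φ}

/-- Finitely many isomorphism types. -/
def FiniteClass (Φ : Set FinSgrp) : Prop :=
  ∃ L : Set FinSgrp, L.Finite ∧ ∀ S ∈ Φ, ∃ T ∈ L, Nonempty (S.carrier ≃* T.carrier)

/-- The multiplication table of a semigroup with elements `0, …, n - 1`. -/
def table {n : ℕ} (s : Semigroup (Fin n)) : List (List ℕ) :=
  List.ofFn fun i => List.ofFn fun j => (s.mul i j : ℕ)

/-- The class is decidable: some computable function decides from the multiplication table
whether a finite semigroup with elements `0, …, n - 1`, `n ≥ 1`, belongs to the class. -/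
def DecidableClass (C : Set FinSgrp) : Prop :=
  ∃ f : List (List ℕ) → Bool, Computable f ∧
    ∀ (n : ℕ) (ne : Nonempty (Fin n)) (s : Semigroup (Fin n)),
      f (table s) = true ↔ FinSgrp.mk (Fin n) (sgrp := s) (nonempty := ne) ∈ C

end Pool.Agent.Lib.MP_88bd66_lc
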