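import Pool.Agent.Lib.MP_88bd66_lc.Grp

section

/-!
The identity `e x y e = e x e y e`.
-/

set_option autoImplicit false

namespace Pool.Agent.Lib.MP_88bd66_lc

open FreeSemigroup

theorem exists_last {N : ℕ} (w : Wd N) : ∃ y, w = of y ∨ ∃ w', w = w' * of y := by
  induction w using FreeSemigroup.recOnMul with
  | ih1 x => exact ⟨x, Or.inl rfl⟩
  | ih2 x w _ ih =>
    obtain ⟨y, h | ⟨w', h⟩⟩ := ih
    · exact ⟨y, Or.inr ⟨of x, by rw [h]⟩⟩
    · exact ⟨y, Or.inr ⟨of x * w', by rw [h, mul_assoc]⟩⟩

theorem exists_coll' {t N : ℕ} {T : Type} [Finite T] (hc : Nat.card T ≤ t) (l : List (Fin N))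
    (hN : l.length + t < N) (g : Fin N → T) :
    ∃ x y, x ≠ y ∧ x ∉ l ∧ y ∉ l ∧ g x = g y := by
  classical
  have := Fintype.ofFinite T
  rw [Nat.card_eq_fintype_card] at hc
  have h1 : (Finset.univ : Finset T).card < (Finset.univ \ l.toFinset).card := by
    rw [Finset.card_univ]
    have h2 := Finset.le_card_sdiff l.toFinset (Finset.univ : Finset (Fin N))
    have h3 := l.toFinset_card_le
    rw [Finset.card_univ, Fintype.card_fin] at h2
    omega
  obtain ⟨x, hx, y, hy, hxy, he⟩ := Finset.exists_ne_map_eq_of_card_lt_of_maps_to h1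
    (f := g) (fun _ _ => Finset.mem_univ _)
  simp only [Finset.mem_sdiff, Finset.mem_univ, true_and, List.mem_toFinset] at hx hy
  exact ⟨x, y, hxy, hx, hy, he⟩

/-- The commutative local group. -/
@[reducible] def locComm {M : Type} [Semigroup M] {c : ℕ} (hB : Base M c) {e : M}
    (he : e * e = e)
    (hab : ∀ s s' : M, e * s = s → s * e = s → e * s' = s' → s' * e = s' → s * s' = s' * s) :
    CommGroup (Loc e) :=
  { locGroup hB he with
    mul_comm := fun s s' => Subtype.ext (hab _ _ s.2.1 s.2.2 s'.2.1 s'.2.2) }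

/-- The local component. -/
def loc {M : Type} [Semigroup M] {e : M} (he : e * e = e) (s : M) : Loc e :=
  ⟨e * s * e, by rw [← mul_assoc, ← mul_assoc, he], by rw [mul_assoc, he]⟩

theorem step5 {t : ℕ} (ht : 1 ≤ t) {M : Type} [Semigroup M]
    (hB : Base M (t.factorial - 1))
    (hL : ∀ x k k' : M, InK k → InK k' → LL (k * x) (k' * x))
    (hab : ∀ e s s' : M, e * e = e → e * s = s → s * e = s → e * s' = s' → s' * e = s' →
      s * s' = s' * s)
    (D : MixData t M (t + 5)) (z₀ a₀ b₀ : M) :
    pw z₀ (t.factorial - 1) * (a₀ * b₀) * pw z₀ (t.factorial - 1) =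
      pw z₀ (t.factorial - 1) * a₀ * pw z₀ (t.factorial - 1) * b₀ * pw z₀ (t.factorial - 1) := by
  obtain ⟨c, hc⟩ : ∃ c, t.factorial - 1 = c := ⟨_, rfl⟩
  have hTid : ∀ i (x : D.T i), pw x c * pw x c = pw x c := fun i x => by
    rw [← hc]; exact om_idem (D.card i) ht x
  rw [hc] at hB ⊢
  obtain ⟨e, he⟩ : ∃ e, pw z₀ c = e := ⟨_, rfl⟩
  have hee : e * e = e := by rw [← he]; exact hB.idem z₀
  have heK : InK e := hB.idemK hee
  have hez : e * z₀ = z₀ * e := by rw [← he, ← pw_succ, pw_succ']
  rw [he]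
  let _ : CommGroup (Loc e) := locComm hB hee (hab e · · hee)
  have hmul : ∀ s s' : Loc e, (s * s').1 = s.1 * s'.1 := fun _ _ => rfl
  let ℓ : M → Loc e := loc hee
  let kap : M → M → Loc e := fun a b => ℓ (a * b) * (ℓ a)⁻¹ * (ℓ b)⁻¹
  suffices h : kap a₀ b₀ = 1 by
    have h1 : ℓ (a₀ * b₀) = ℓ a₀ * ℓ b₀ := by
      have h2 : ℓ (a₀ * b₀) = kap a₀ b₀ * (ℓ a₀ * ℓ b₀) := by
        simp only [kap]
        rw [mul_assoc, mul_assoc, mul_comm (ℓ a₀) (ℓ b₀), inv_mul_cancel_left, inv_mul_cancel,
          mul_one]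
      rw [h2, h, one_mul]
    have h3 := congrArg Subtype.val h1
    rw [hmul] at h3
    change e * (a₀ * b₀) * e = e * a₀ * e * (e * b₀ * e) at h3
    rw [h3]
    calc e * a₀ * e * (e * b₀ * e) = e * a₀ * (e * e) * b₀ * e := by simp only [mul_assoc]
      _ = _ := by rw [hee]
  -- values of kap
  have hℓe : ℓ e = 1 := Subtype.ext (by
    change e * e * e = e
    rw [hee, hee])
  have kap1 : ∀ b, kap e b = 1 := by
    intro b
    have : ℓ (e * b) = ℓ b := Subtype.ext (by
      change e * (e * b) * e = e * b * e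
      rw [← mul_assoc e e, hee])
    simp only [kap]
    rw [this, hℓe, inv_one, mul_one, mul_inv_cancel]
  have kap2 : ∀ a, kap a e = 1 := by
    intro b
    have : ℓ (b * e) = ℓ b := Subtype.ext (by
      change e * (b * e) * e = e * b * e
      rw [← mul_assoc, mul_assoc, hee])
    simp only [kap]
    rw [this, hℓe, inv_one, mul_one, mul_inv_cancel]
  have kap3 : ∀ b, kap z₀ b = 1 := by
    intro b
    have : ℓ (z₀ * b) = ℓ z₀ * ℓ b := Subtype.ext (by
      change e * (z₀ * b) * e = e * z₀ * e * (e * b * e)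
      calc e * (z₀ * b) * e = e * z₀ * b * e := by simp only [mul_assoc]
        _ = e * (e * z₀) * b * e := by rw [← mul_assoc, hee]
        _ = e * (z₀ * e) * b * e := by rw [hez]
        _ = e * z₀ * (e * e) * b * e := by rw [hee]; simp only [mul_assoc]
        _ = _ := by simp only [mul_assoc])
    simp only [kap]
    rw [this, mul_comm (ℓ z₀) (ℓ b), mul_inv_cancel_right, mul_inv_cancel]
  have kap4 : ∀ w y b, kap (w * y) b = kap y b := by
    intro w y b
    obtain ⟨u, hu⟩ := hL y (e * w) e (heK.right w) heK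
    obtain ⟨g, hg⟩ : ∃ g : Loc e, ℓ u = g := ⟨_, rfl⟩
    have hg1 : g.1 = e * u * e := by rw [← hg]; rfl
    have h1 : ∀ s, ℓ (w * y * s) = g * ℓ (y * s) := by
      intro s
      refine Subtype.ext ?_
      rw [hmul, hg1]
      change e * (w * y * s) * e = e * u * e * (e * (y * s) * e)
      calc e * (w * y * s) * e = e * e * w * y * s * e := by rw [hee]; simp only [mul_assoc]
        _ = e * (e * w * y) * s * e := by simp only [mul_assoc]
        _ = e * (u * (e * y)) * s * e := by rw [hu]
        _ = e * (u * (e * e * y)) * s * e := by rw [hee]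
        _ = _ := by simp only [mul_assoc]
    have h2 : ℓ (w * y) = g * ℓ y := by
      have h3 := h1 e
      have h4 : ∀ s, ℓ (s * e) = ℓ s := fun b => Subtype.ext (by
        change e * (b * e) * e = e * b * e
        rw [← mul_assoc, mul_assoc, hee])
      rwa [h4, h4] at h3
    simp only [kap]
    rw [h1, h2, mul_inv_rev]
    have : g * ℓ (y * b) * ((ℓ y)⁻¹ * g⁻¹) * (ℓ b)⁻¹ =
        (g * g⁻¹) * (ℓ (y * b) * (ℓ y)⁻¹ * (ℓ b)⁻¹) := by
      simp only [mul_comm, mul_left_comm, mul_assoc]
    rw [this, mul_inv_cancel, one_mul]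
  -- assignments
  let m := D.m
  let z : Fin (t + 5) := ⟨0, by omega⟩
  let i : Fin (t + 5) := ⟨1, by omega⟩
  let i' : Fin (t + 5) := ⟨2, by omega⟩
  have hzi : z ≠ i := by simp [z, i]
  have hzi' : z ≠ i' := by simp [z, i']
  have hii' : i ≠ i' := by simp [i, i']
  obtain ⟨ε, hε⟩ : ∃ ε, pw (m z) c = ε := ⟨_, rfl⟩
  have hεε : ε * ε = ε := by
    rw [← hε]
    funext i
    rw [Pi.mul_apply, pw_pi]
    exact hTid i _
  have key : ∀ θ : Fin (t + 5) → M, θ z = z₀ →
      ∃ κ : ∀ k, D.T k → D.T k → Loc e, ∀ p q : ∀ i, D.T i,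
        kap (lift θ (D.W p)) (lift θ (D.W q)) = ∏ k, κ k (p k) (q k) := by
    intro θ hθ
    let F : (∀ i, D.T i) →ₙ* M := ⟨fun p => lift θ (D.W p), fun p q => by
      rw [D.hW p q θ, map_mul]⟩
    have hFε : F ε = e := by
      rw [← hε, pw_map]
      have : F (m z) = z₀ := by
        change lift θ (D.W (D.m z)) = z₀
        rw [D.hm z θ, lift_of, hθ]
      rw [this, he]
    have hℓF : ∀ p, (ℓ (F p)).1 = F (ε * p * ε) := by
      intro p
      rw [map_mul, map_mul, hFε]
      rfl
    let Φ : ∀ k, D.T k → Loc e := fun k s => ℓ (F (Function.update ε k s))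
    have hA : ∀ (p : ∀ i, D.T i) (A : Finset (Fin D.k)),
        ℓ (F (mix A p ε)) = ∏ k ∈ A, Φ k (p k) := by
      intro p A
      induction A using Finset.induction_on with
      | empty =>
        rw [mix_empty, hFε, hℓe]
        simp
      | insert l A hlA ih =>
        rw [Finset.prod_insert hlA, ← ih, mul_comm]
        refine Subtype.ext ?_
        rw [hmul, hℓF, hℓF, hℓF, ← map_mul]
        congr 1
        funext i
        have e3 : ε i * ε i = ε i := congrFun hεε i
        by_cases hi : i = l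
        · subst hi
          simp only [Pi.mul_apply, mix, Finset.mem_insert_self, if_true, hlA, if_false,
            Function.update_self]
          rw [e3, e3, ← mul_assoc, ← mul_assoc, e3]
        · have hup : Function.update ε l (p l) i = ε i := Function.update_of_ne hi _ _
          simp only [Pi.mul_apply, hup, e3]
          by_cases hiA : i ∈ A
          · simp [mix, hi, hiA, mul_assoc, e3]
          · simp [mix, hi, hiA, e3]
    have hall : ∀ p, ℓ (F p) = ∏ k, Φ k (p k) := by
      intro p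
      rw [← hA p Finset.univ, mix_univ]
    refine ⟨fun k s s' => Φ k (s * s') * (Φ k s)⁻¹ * (Φ k s')⁻¹, fun p q => ?_⟩
    have e1 : lift θ (D.W p) * lift θ (D.W q) = F (p * q) := by rw [map_mul]; rfl
    have e2 : lift θ (D.W p) = F p := rfl
    have e3 : lift θ (D.W q) = F q := rfl
    simp only [kap]
    rw [e1, e2, e3, hall, hall, hall, Finset.prod_mul_distrib, Finset.prod_mul_distrib,
      Finset.prod_inv_distrib, Finset.prod_inv_distrib]
    rfl
  -- switching one coordinate
  have hratio : ∀ (κ : ∀ k, D.T k → D.T k → Loc e) (l : Fin D.k) (p p' q : ∀ i, D.T i),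
      (∏ k, κ k (mix {l} p p' k) (q k)) * (∏ k, κ k (p' k) (q k))⁻¹ =
        κ l (p l) (q l) * (κ l (p' l) (q l))⁻¹ := by
    intro κ l p p' q
    rw [← Finset.prod_inv_distrib, ← Finset.prod_mul_distrib,
      Finset.prod_eq_single l]
    · simp [mix]
    · intro k _ hk
      simp [mix, hk]
    · intro h; exact absurd (Finset.mem_univ l) h
  have hlast : ∀ k, ∃ y, D.W (mix {k} (m i) (m i')) = of y ∨
      ∃ w', D.W (mix {k} (m i) (m i')) = w' * of y := fun k => exists_last _
  choose y hy using hlast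
  have hkapy : ∀ (θ : Fin (t + 5) → M) k b,
      kap (lift θ (D.W (mix {k} (m i) (m i')))) b = kap (θ (y k)) b := by
    intro θ k b
    rcases hy k with h | ⟨w', h⟩
    · rw [h, lift_of]
    · rw [h, map_mul, lift_of, kap4]
  have hFm : ∀ (θ : Fin (t + 5) → M) x, lift θ (D.W (m x)) = θ x := fun θ x => by
    rw [D.hm x θ, lift_of]
  by_contra hne
  have hyk : ∀ k, y k = i' := by
    intro k
    by_contra hyk
    obtain ⟨j, j', hjj, hj, hj', hcol⟩ := exists_coll' (D.card k) [z, i, i', y k]
      (by simp only [List.length_cons, List.length_nil]; omega) fun x => m x k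
    simp only [List.mem_cons, List.not_mem_nil, or_false, not_or] at hj hj'
    let θ : Fin (t + 5) → M := fun x => if x = z then z₀ else if x = i' then a₀ else
      if x = j then b₀ else e
    have e1 : θ z = z₀ := by simp [θ]
    have e2 : θ i' = a₀ := by simp [θ, hzi'.symm]
    have e3 : θ j = b₀ := by simp [θ, hj.1, hj.2.2.1]
    have e4 : θ j' = e := by simp [θ, hj'.1, hj'.2.2.1, Ne.symm hjj]
    obtain ⟨κ, hκ⟩ := key θ e1
    have h1 := hratio κ k (m i) (m i') (m j)
    have h2 := hratio κ k (m i) (m i') (m j')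
    rw [hcol, ← h2, ← hκ, ← hκ, ← hκ, ← hκ, hkapy, hkapy, hFm, hFm, hFm, e2, e3, e4, kap2, kap2,
      inv_one, mul_one] at h1
    have h3 : kap (θ (y k)) b₀ = 1 := by
      by_cases hyz : y k = z
      · rw [hyz, e1]; exact kap3 _
      · have : θ (y k) = e := by simp [θ, hyz, hyk, Ne.symm hj.2.2.2]
        rw [this]; exact kap1 _
    rw [h3, one_mul, inv_eq_one] at h1
    exact hne h1
  let j : Fin (t + 5) := ⟨3, by omega⟩
  let θ : Fin (t + 5) → M := fun x => if x = z then z₀ else if x = i then a₀ else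
    if x = j then b₀ else e
  have e1 : θ z = z₀ := by simp [θ]
  have e2 : θ i = a₀ := by simp [θ, hzi.symm]
  have e3 : θ j = b₀ := by simp [θ, z, i, j]
  have e4 : θ i' = e := by simp [θ, z, i, i', j]
  obtain ⟨κ, hκ⟩ := key θ e1
  have h1 : ∀ k, κ k (m i k) (m j k) = κ k (m i' k) (m j k) := by
    intro k
    have h2 := hratio κ k (m i) (m i') (m j)
    rw [← hκ, ← hκ, hkapy, hyk, hFm, hFm, e3, e4, kap1, inv_one, mul_one] at h2
    exact (mul_inv_eq_one.1 h2.symm)
  apply hne
  have h2 := hκ (m i) (m j)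
  have h3 := hκ (m i') (m j)
  rw [hFm, hFm, e3] at h2 h3
  rw [e2] at h2
  rw [e4, kap1] at h3
  rw [h2, h3]
  exact Finset.prod_congr rfl fun k _ => h1 k

end Pool.Agent.Lib.MP_88bd66_lc
end

section

/-!
The identities `x a b y = x b a y` and `x a y = x a z ^ n y`.
-/

set_option autoImplicit false

namespace Pool.Agent.Lib.MP_88bd66_lc

open FreeSemigroup

/-- The two identities, `n = c + 1`. -/
def Ax (c : ℕ) (M : Type) [Semigroup M] : Prop :=
  (∀ x a b y : M, x * a * b * y = x * b * a * y) ∧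
    ∀ x a y z : M, x * a * y = x * a * pw z c * y

section

variable {M : Type} [Semigroup M] {c : ℕ}

theorem K_eq (hB : Base M c) {s s' e : M} (hs : InK s) (hR : RR s' s)
    (hL : LL s' s) (h : e * s * e = e * s' * e) : s = s' := by
  obtain ⟨g, hg⟩ : ∃ g, pw s c = g := ⟨_, rfl⟩
  have hgg : g * g = g := by rw [← hg]; exact hB.idem s
  have h1 : g * s = s := by rw [← hg]; exact hB.om_mul hs
  have h2 : s * g = s := by rw [← hg]; exact hB.mul_om hs
  obtain ⟨u, hu⟩ := hR
  obtain ⟨v, hv⟩ := hL
  have h3 : g * s' = s' := by rw [hu, ← mul_assoc, h1]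
  have h4 : s' * g = s' := by rw [hv, mul_assoc, h2]
  obtain ⟨a, ha⟩ : ∃ a, g * e * g = a := ⟨_, rfl⟩
  have ha1 : g * a = a := by rw [← ha, ← mul_assoc, ← mul_assoc, hgg]
  have ha2 : a * g = a := by rw [← ha, mul_assoc, hgg]
  have hga := hB.group hgg ha1 ha2
  have h5 : ∀ w, g * w = w → w * g = w → a * w * a = g * (e * w * e) * g := by
    intro w hw hw'
    rw [← ha]
    calc g * e * g * w * (g * e * g) = g * e * (g * (w * g)) * e * g := by
          simp only [mul_assoc]
      _ = g * e * w * e * g := by rw [hw', hw]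
      _ = _ := by simp only [mul_assoc]
  have h6 : a * s * a = a * s' * a := by rw [h5 s h1 h2, h5 s' h3 h4, h]
  obtain ⟨b, hb⟩ : ∃ b, pw a (2 * c) = b := ⟨_, rfl⟩
  have hba : b * a = g := by
    rw [← hb, ← pw_succ, show 2 * c + 1 = c + c + 1 by ring, ← pw_add, hga, hgg]
  have hab : a * b = g := by
    rw [← hb, ← pw_succ', show 2 * c + 1 = c + c + 1 by ring, ← pw_add, hga, hgg]
  have h7 : ∀ w, g * w = w → w * g = w → b * (a * w * a) * b = w := by
    intro w hw hw'
    calc b * (a * w * a) * b = (b * a) * w * (a * b) := by simp only [mul_assoc]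
      _ = w := by rw [hba, hab, hw, hw']
  rw [← h7 s h1 h2, ← h7 s' h3 h4, h6]

theorem ax_of (hB : Base M c) (h3 : ∀ a b d : M, InK (a * b * d))
    (hR : ∀ x k k' : M, InK k → InK k' → RR (x * k) (x * k'))
    (hL : ∀ x k k' : M, InK k → InK k' → LL (k * x) (k' * x))
    (hab : ∀ e s s' : M, e * e = e → e * s = s → s * e = s → e * s' = s' → s' * e = s' →
      s * s' = s' * s)
    (hκ : ∀ z a b : M, pw z c * (a * b) * pw z c = pw z c * a * pw z c * b * pw z c) :
    Ax c M := by
  have hκ' : ∀ e a b : M, e * e = e → e * (a * b) * e = e * a * e * b * e := by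
    intro e a b he
    have := hκ e a b
    rwa [Base.pow_idem he] at this
  -- insertion of idempotents
  have hins : ∀ x y s s' e k k' l l' : M, InK s → s = x * k → InK k →
      s' = x * k' → InK k' → s = l * y → InK l → s' = l' * y → InK l' →
      e * s * e = e * s' * e → s = s' := by
    intro x y s s' e k k' l l' hs h1 hk h2 hk' h4 hl h5 hl' h6
    refine K_eq hB hs ?_ ?_ h6
    · rw [h1, h2]; exact hR x k' k hk' hk
    · rw [h4, h5]; exact hL y l' l hl' hl
  have ins1 : ∀ x a y e : M, e * e = e → x * a * y = x * e * a * y := by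
    intro x a y e he
    have heK := hB.idemK he
    have hs := h3 x a y
    refine hins x y _ _ e (a * y * pw (x * a * y) c) (e * a * y) (pw (x * a * y) c * (x * a))
      (x * e * a) hs ?_ ((hB.om _).left _) (by simp only [mul_assoc])
      ((heK.right a).right y) ?_ ((hB.om _).right _) rfl ((heK.left x).right a) ?_
    · conv_lhs => rw [← hB.mul_om hs]
      simp only [mul_assoc]
    · conv_lhs => rw [← hB.om_mul hs]
      simp only [mul_assoc]
    · have e1 : x * a * y = x * (a * y) := mul_assoc _ _ _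
      have e2 : x * e * a * y = (x * e) * (a * y) := by simp only [mul_assoc]
      rw [e1, e2, hκ' e _ _ he, hκ' e _ _ he]
      have e3 : e * (x * e) * e = e * x * e := by rw [← mul_assoc, mul_assoc, he]
      rw [e3]
  have ins2 : ∀ x a y e : M, e * e = e → x * a * y = x * a * e * y := by
    intro x a y e he
    have heK := hB.idemK he
    have hs := h3 x a y
    refine hins x y _ _ e (a * y * pw (x * a * y) c) (a * e * y) (pw (x * a * y) c * (x * a))
      (x * a * e) hs ?_ ((hB.om _).left _) (by simp only [mul_assoc])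
      ((heK.left a).right y) ?_ ((hB.om _).right _) rfl (heK.left _) ?_
    · conv_lhs => rw [← hB.mul_om hs]
      simp only [mul_assoc]
    · conv_lhs => rw [← hB.om_mul hs]
      simp only [mul_assoc]
    · have e2 : x * a * e * y = (x * a) * (e * y) := by simp only [mul_assoc]
      rw [e2, hκ' e (x * a) y he, hκ' e (x * a) (e * y) he]
      calc e * (x * a) * e * y * e = e * (x * a) * (e * e) * y * e := by rw [he]
        _ = _ := by simp only [mul_assoc]
  refine ⟨?_, fun x a y z => ins2 x a y _ (hB.idem z)⟩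
  intro x a b y
  obtain ⟨e, hee⟩ : ∃ e, pw x c = e := ⟨_, rfl⟩
  have he : e * e = e := by rw [← hee]; exact hB.idem x
  have hform : ∀ a b : M, x * a * b * y = x * ((e * a * e) * (e * b * e)) * y := by
    intro a b
    calc x * a * b * y = x * a * e * b * y := ins1 (x * a) b y e he
      _ = x * a * (e * b * y) := by simp only [mul_assoc]
      _ = x * e * a * (e * b * y) := ins1 x a (e * b * y) e he
      _ = (x * e * a * e) * b * y := by simp only [mul_assoc]
      _ = (x * e * a * e) * b * e * y := ins2 _ b y e he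
      _ = (x * e * a * (e * e)) * b * e * y := by rw [he]
      _ = _ := by simp only [mul_assoc]
  rw [hform a b, hform b a]
  have h1 : ∀ w : M, e * (e * w * e) = e * w * e := fun w => by
    rw [← mul_assoc, ← mul_assoc, he]
  have h2 : ∀ w : M, (e * w * e) * e = e * w * e := fun w => by rw [mul_assoc, he]
  rw [hab e _ _ he (h1 a) (h2 a) (h1 b) (h2 b)]

end

theorem thmA {t : ℕ} (ht : 1 ≤ t) {M : Type} [Semigroup M] [Finite M] [Nonempty M]
    (hyp : Hyp t M) : Ax (t.factorial - 1) M := by
  have hB := hyp.base ht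
  obtain ⟨D5⟩ := hyp.mix (t + 5) (by omega)
  obtain ⟨D3⟩ := hyp.mix (t + 3) (by omega)
  have h3 := step2 hB D5
  have hR := step3 hB h3 D3
  have hL := step3' hB h3 D3
  have hab : ∀ e s s' : M, e * e = e → e * s = s → s * e = s → e * s' = s' → s' * e = s' →
      s * s' = s' * s := fun e s s' he h1 h2 h3 h4 => step4 ht hyp hB he h1 h2 h3 h4
  exact ax_of hB h3 hR hL hab (step5 ht hB hL hab D5)

end Pool.Agent.Lib.MP_88bd66_lc
end

section

/-!
Finitely many identities determine all identities.
-/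

set_option autoImplicit false

namespace Pool.Agent.Lib.MP_88bd66_lc

open FreeSemigroup

/-- The basic identities. -/
structure AxM (c : ℕ) (M : Type) [Semigroup M] : Prop where
  idem : ∀ x : M, pw x c * pw x c = pw x c
  comm : ∀ x a b y : M, x * a * b * y = x * b * a * y
  ins : ∀ x a y z : M, x * a * y = x * a * pw z c * y

/-- The last letter. -/
def wlast {N : ℕ} (w : Wd N) : Fin N := (lst w).getLast (lst_ne_nil w)

theorem wlast_mul {N : ℕ} (u v : Wd N) : wlast (u * v) = wlast v := by
  change (lst u ++ lst v).getLast _ = (lst v).getLast _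
  exact List.getLast_append_of_ne_nil _ (lst_ne_nil v)

theorem wlast_of {N : ℕ} (x : Fin N) : wlast (of x : Wd N) = x := rfl

section

variable {M : Type} [Semigroup M] {c N : ℕ}

theorem pw_form (s : M) (c : ℕ) (y : M) : ∃ r, pw s c * y = s * r := by
  cases c with
  | zero => exact ⟨y, rfl⟩
  | succ c => exact ⟨pw s c * y, by rw [pw_succ', mul_assoc]⟩

theorem AxM.base (h : AxM c M) : Base M c := by
  refine ⟨h.idem, fun z s => ?_⟩
  obtain ⟨r, hr⟩ := pw_form s c (pw z c)
  refine ⟨pw z c * pw z c, r, ?_⟩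
  calc pw z c = pw z c * pw z c * pw z c := by rw [h.idem, h.idem]
    _ = pw z c * pw z c * pw s c * pw z c := h.ins _ _ _ s
    _ = pw z c * pw z c * (pw s c * pw z c) := by simp only [mul_assoc]
    _ = _ := by rw [hr, ← mul_assoc]

theorem AxM.efe (h : AxM c M) {e f : M} (he : e * e = e) (hf : f * f = f) : e * f * e = e := by
  have := h.ins e e e f
  rw [Base.pow_idem hf, he, he] at this
  exact this.symm

/-- Words in two idempotents. -/
theorem AxM.gab (h : AxM c M) {e f : M} (he : e * e = e) (hf : f * f = f) {g a b : M}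
    (hg : g = e ∨ g = f) (ha : a = e ∨ a = f) (hb : b = e ∨ b = f) : g * a * b = g * b := by
  rcases hg with rfl | rfl <;> rcases ha with rfl | rfl <;> rcases hb with rfl | rfl
  · rw [he, he]
  · rw [he]
  · rw [h.efe he hf, he]
  · rw [mul_assoc, hf]
  · rw [mul_assoc, he]
  · rw [h.efe hf he, hf]
  · rw [hf]
  · rw [hf, hf]

theorem AxM.headw (h : AxM c M) {e f : M} (he : e * e = e) (hf : f * f = f) (θ : Fin N → M)
    (hθ : ∀ z, θ z = e ∨ θ z = f) (w : Wd N) {g : M} (hg : g = e ∨ g = f) :
    lift θ w * g = θ w.head * g := by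
  induction w using FreeSemigroup.recOnMul with
  | ih1 x => rfl
  | ih2 x w _ ih =>
    rw [map_mul, lift_of, mul_assoc, ih, ← mul_assoc, h.gab he hf (hθ x) (hθ _) hg]
    rfl

theorem AxM.lastw (h : AxM c M) {e f : M} (he : e * e = e) (hf : f * f = f) (θ : Fin N → M)
    (hθ : ∀ z, θ z = e ∨ θ z = f) (w : Wd N) {g : M} (hg : g = e ∨ g = f) :
    g * lift θ w = g * θ (wlast w) := by
  induction w using FreeSemigroup.recOnMul generalizing g with
  | ih1 x => rfl
  | ih2 x w _ ih =>
    rw [map_mul, lift_of, wlast_mul, ← mul_assoc, mul_assoc, ih (hθ x), ← mul_assoc,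
      h.gab he hf hg (hθ x) (hθ _)]

theorem AxM.countw (h : AxM c M) (a : M) (z : Fin N) (w : Wd N) :
    pw a c * lift (fun y => if y = z then a else pw a c) w * a =
      pw a c * pw a ((lst w).count z) := by
  induction w using FreeSemigroup.recOnMul with
  | ih1 x =>
    rw [lift_of, lst_of]
    by_cases hx : x = z
    · subst hx
      simp only [if_true, List.count_cons_self, List.count_nil, zero_add]
      rw [pw_succ, pw_zero, mul_assoc]
    · simp only [hx, if_false]
      rw [List.count_cons_of_ne (by exact hx), List.count_nil, pw_zero, h.idem]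
  | ih2 x w _ ih =>
    rw [map_mul, lift_of, lst_mul, lst_of]
    by_cases hx : x = z
    · subst hx
      simp only [if_true] at ih ⊢
      rw [List.singleton_append, List.count_cons_self, pw_succ' a (List.count x (lst w))]
      have e1 : pw a c * a = a * pw a c := by rw [← pw_succ, pw_succ']
      calc pw a c * (a * lift (fun y => if y = x then a else pw a c) w) * a =
            (pw a c * a) * lift (fun y => if y = x then a else pw a c) w * a := by
              simp only [mul_assoc]
        _ = a * (pw a c * lift (fun y => if y = x then a else pw a c) w * a) := by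
              rw [e1]; simp only [mul_assoc]
        _ = a * (pw a c * pw a (List.count x (lst w))) := by rw [ih]
        _ = (a * pw a c) * pw a (List.count x (lst w)) := by simp only [mul_assoc]
        _ = _ := by rw [← e1]; simp only [mul_assoc]
    · simp only [hx, if_false]
      rw [List.singleton_append, List.count_cons_of_ne (by exact hx), ← ih]
      rw [← mul_assoc, h.idem]

/-- Necessary conditions for an identity. -/
theorem AxM.nec (h : AxM c M) {u v : Wd N} (huv : Sat M u v) :
    (u.head = v.head ∨ ∀ a b : M, pw a c * pw b c = pw b c) ∧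
    (wlast u = wlast v ∨ ∀ a b : M, pw b c * pw a c = pw b c) ∧
    ∀ z, ∀ a : M, pw a c * pw a ((lst u).count z) = pw a c * pw a ((lst v).count z) := by
  refine ⟨?_, ?_, ?_⟩
  · by_cases hh : u.head = v.head
    · exact Or.inl hh
    · right
      intro a b
      let θ : Fin N → M := fun y => if y = u.head then pw a c else pw b c
      have hθ : ∀ z, θ z = pw a c ∨ θ z = pw b c := by
        intro z
        by_cases hz : z = u.head
        · left; simp [θ, hz]
        · right; simp [θ, hz]
      have h1 := h.headw (h.idem a) (h.idem b) θ hθ u (Or.inr rfl)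
      have h2 := h.headw (h.idem a) (h.idem b) θ hθ v (Or.inr rfl)
      have e1 : θ u.head = pw a c := by simp [θ]
      have e2 : θ v.head = pw b c := by simp [θ, Ne.symm hh]
      rw [e1] at h1
      rw [e2, h.idem] at h2
      rw [← h1, huv θ, h2]
  · by_cases hh : wlast u = wlast v
    · exact Or.inl hh
    · right
      intro a b
      let θ : Fin N → M := fun y => if y = wlast u then pw a c else pw b c
      have hθ : ∀ z, θ z = pw a c ∨ θ z = pw b c := by
        intro z
        by_cases hz : z = wlast u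
        · left; simp [θ, hz]
        · right; simp [θ, hz]
      have h1 := h.lastw (h.idem a) (h.idem b) θ hθ u (Or.inr rfl)
      have h2 := h.lastw (h.idem a) (h.idem b) θ hθ v (Or.inr rfl)
      have e1 : θ (wlast u) = pw a c := by simp [θ]
      have e2 : θ (wlast v) = pw b c := by simp [θ, Ne.symm hh]
      rw [e1] at h1
      rw [e2, h.idem] at h2
      rw [← h1, huv θ, h2]
  · intro z a
    rw [← h.countw a z u, ← h.countw a z v, huv]

theorem prod_count {G : Type} [CommGroup G] (g : Fin N → G) (φ : Wd N →ₙ* G)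
    (hφ : ∀ x, φ (of x) = g x) (w : Wd N) : φ w = ∏ z, g z ^ (lst w).count z := by
  induction w using FreeSemigroup.recOnMul with
  | ih1 x =>
    rw [hφ, lst_of, Finset.prod_eq_single x]
    · simp
    · intro y _ hy
      rw [List.count_cons_of_ne (Ne.symm hy), List.count_nil, pow_zero]
    · intro h; exact absurd (Finset.mem_univ x) h
  | ih2 x w h1 h2 =>
    rw [map_mul, h1, h2, ← Finset.prod_mul_distrib]
    refine Finset.prod_congr rfl fun z _ => ?_
    rw [lst_mul, List.count_append, pow_add]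

/-- Sufficient conditions for an identity. -/
theorem AxM.suf (h : AxM c M) {x y x' y' : Fin N} {m m' : Wd N}
    (hh : x = x' ∨ ∀ a b : M, pw a c * pw b c = pw b c)
    (hl : y = y' ∨ ∀ a b : M, pw b c * pw a c = pw b c)
    (hc : ∀ z, ∀ a : M, pw a c * pw a ((lst (of x * m * of y)).count z) =
      pw a c * pw a ((lst (of x' * m' * of y')).count z)) :
    Sat M (of x * m * of y) (of x' * m' * of y') := by
  intro θ
  have hB := h.base
  obtain ⟨e, he⟩ : ∃ e, pw (θ x) c = e := ⟨_, rfl⟩
  have hee : e * e = e := by rw [← he]; exact h.idem _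
  have heK : InK e := hB.idemK hee
  have hab : ∀ s s' : M, e * s = s → s * e = s → e * s' = s' → s' * e = s' →
      s * s' = s' * s := by
    intro s s' h1 h2 h3 h4
    calc s * s' = e * s * (s' * e) := by rw [h1, h4]
      _ = e * s * s' * e := by simp only [mul_assoc]
      _ = e * s' * s * e := h.comm _ _ _ _
      _ = s' * s := by rw [h3, mul_assoc, h2]
  let _ : CommGroup (Loc e) := locComm hB hee hab
  have hmul : ∀ s s' : Loc e, (s * s').1 = s.1 * s'.1 := fun _ _ => rfl
  have hone : (1 : Loc e).1 = e := rfl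
  let φ : M →ₙ* Loc e := ⟨loc hee, fun s s' => Subtype.ext (by
    rw [hmul]
    change e * (s * s') * e = e * s * e * (e * s' * e)
    calc e * (s * s') * e = e * s * (s' * e) := by simp only [mul_assoc]
      _ = e * s * pw e c * (s' * e) := h.ins _ _ _ _
      _ = e * s * (e * e) * (s' * e) := by rw [Base.pow_idem hee, hee]
      _ = _ := by simp only [mul_assoc])⟩
  have hφ : ∀ s, (φ s).1 = e * s * e := fun _ => rfl
  have hins : ∀ a b d : M, a * b * d = a * e * b * e * d := by
    intro a b d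
    have hi := fun x a y => h.ins x a y e
    rw [Base.pow_idem hee] at hi
    calc a * b * d = a * b * e * d := hi _ _ _
      _ = a * b * (e * e) * d := by rw [hee]
      _ = a * b * e * (e * d) := by simp only [mul_assoc]
      _ = a * e * b * (e * d) := h.comm _ _ _ _
      _ = _ := by simp only [mul_assoc]
  -- the normal form
  have hF : ∀ (x y : Fin N) (m : Wd N), lift θ (of x * m * of y) =
      θ x * e * ((φ (θ x))⁻¹).1 * (φ (lift θ (of x * m * of y))).1 * ((φ (θ y))⁻¹).1 *
        (e * θ y) := by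
    intro x y m
    have e1 : lift θ (of x * m * of y) = θ x * lift θ m * θ y := by
      rw [map_mul, map_mul, lift_of, lift_of]
    have e2 : ((φ (θ x))⁻¹).1 * (φ (lift θ (of x * m * of y))).1 * ((φ (θ y))⁻¹).1 =
        (φ (lift θ m)).1 := by
      rw [← hmul, ← hmul, e1, map_mul, map_mul]
      congr 1
      rw [mul_assoc (φ (θ x)), inv_mul_cancel_left, mul_inv_cancel_right]
    calc lift θ (of x * m * of y) = θ x * lift θ m * θ y := e1
      _ = θ x * e * lift θ m * e * θ y := hins _ _ _
      _ = θ x * (e * e) * lift θ m * (e * e) * θ y := by rw [hee]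
      _ = θ x * e * (e * lift θ m * e) * (e * θ y) := by simp only [mul_assoc]
      _ = θ x * e * (φ (lift θ m)).1 * (e * θ y) := by rw [hφ]
      _ = θ x * e * (((φ (θ x))⁻¹).1 * (φ (lift θ (of x * m * of y))).1 *
            ((φ (θ y))⁻¹).1) * (e * θ y) := by rw [e2]
      _ = _ := by simp only [mul_assoc]
  have hlam : θ x * e * ((φ (θ x))⁻¹).1 = θ x' * e * ((φ (θ x'))⁻¹).1 := by
    rcases hh with hh | hh
    · rw [hh]
    · have key : ∀ s : M, s * e * ((φ s)⁻¹).1 = e := by
        intro s
        have e1 : e * (s * e) = s * e := by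
          have e2 := hB.om_mul (heK.left s)
          have e3 := hh e (s * e)
          rw [Base.pow_idem hee] at e3
          calc e * (s * e) = e * (pw (s * e) c * (s * e)) := by rw [e2]
            _ = e * pw (s * e) c * (s * e) := by simp only [mul_assoc]
            _ = s * e := by rw [e3, e2]
        have e4 : s * e = (φ s).1 := by rw [hφ, mul_assoc]; exact e1.symm
        rw [e4, ← hmul, mul_inv_cancel]
        rfl
      rw [key, key]
  have hrho : ((φ (θ y))⁻¹).1 * (e * θ y) = ((φ (θ y'))⁻¹).1 * (e * θ y') := by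
    rcases hl with hl | hl
    · rw [hl]
    · have key : ∀ s : M, ((φ s)⁻¹).1 * (e * s) = e := by
        intro s
        have e1 : e * s * e = e * s := by
          have e2 := hB.mul_om (heK.right s)
          have e3 := hl e (e * s)
          rw [Base.pow_idem hee] at e3
          calc e * s * e = e * s * pw (e * s) c * e := by rw [e2]
            _ = e * s * (pw (e * s) c * e) := by simp only [mul_assoc]
            _ = e * s := by rw [e3, e2]
        have e4 : e * s = (φ s).1 := by rw [hφ]; exact e1.symm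
        rw [e4, ← hmul, inv_mul_cancel]
        rfl
      rw [key, key]
  have hphi : φ (lift θ (of x * m * of y)) = φ (lift θ (of x' * m' * of y')) := by
    have hp := prod_count (fun z => φ (θ z)) (φ.comp (lift θ)) (fun x => by
      simp only [MulHom.comp_apply, lift_of])
    have e1 := hp (of x * m * of y)
    have e2 := hp (of x' * m' * of y')
    simp only [MulHom.comp_apply] at e1 e2
    rw [e1, e2]
    refine Finset.prod_congr rfl fun z _ => ?_
    obtain ⟨g, hg⟩ : ∃ g, φ (θ z) = g := ⟨_, rfl⟩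
    rw [hg]
    have hpow : ∀ k, (g ^ (k + 1)).1 = pw g.1 k := by
      intro k
      induction k with
      | zero => rw [zero_add, pow_one]; rfl
      | succ k ih => rw [pow_succ, hmul, ih]; rfl
    have hgc := hc z g.1
    rw [hB.group hee g.2.1 g.2.2] at hgc
    have hek : ∀ k, e * pw g.1 k = (g ^ (k + 1)).1 := fun k => by
      rw [hpow]
      have := (g ^ (k + 1)).2.1
      rwa [hpow] at this
    rw [hek, hek] at hgc
    have := Subtype.ext hgc
    rw [pow_succ, pow_succ] at this
    exact mul_right_cancel this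
  rw [hF x y m, hF x' y' m', hlam, hphi]
  rw [mul_assoc _ ((φ (θ y))⁻¹).1, mul_assoc _ ((φ (θ y'))⁻¹).1, hrho]

theorem AxM.red (h : AxM c M) (a : M) (k : ℕ) :
    pw a c * pw a k = pw a c * pw a (k % (c + 1)) := by
  have key : ∀ q r, pw a c * pw a (r + (c + 1) * q) = pw a c * pw a r := by
    intro q
    induction q with
    | zero => intro r; simp
    | succ q ih =>
      intro r
      have e : r + (c + 1) * (q + 1) = c + (r + (c + 1) * q) + 1 := by ring
      rw [e, ← pw_add, ← mul_assoc, h.idem, ih]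
  conv_lhs => rw [← Nat.mod_add_div k (c + 1)]
  rw [key]

end

/-! ### Renaming letters -/

theorem lift_map {M : Type} [Semigroup M] {N K : ℕ} (ρ : Fin N → Fin K) (θ : Fin K → M)
    (w : Wd N) : lift θ (FreeSemigroup.map ρ w) = lift (fun x => θ (ρ x)) w := by
  induction w using FreeSemigroup.recOnMul with
  | ih1 x => rfl
  | ih2 x w h1 h2 => rw [map_mul, map_mul, map_mul, h1, h2]

theorem sat_map {M : Type} [Semigroup M] {N K : ℕ} (ρ : Fin N → Fin K) {u v : Wd N}
    (h : Sat M u v) : Sat M (FreeSemigroup.map ρ u) (FreeSemigroup.map ρ v) := fun θ => by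
  rw [lift_map, lift_map, h]

theorem sat_of_map {M : Type} [Semigroup M] {N K : ℕ} (ρ : Fin N → Fin K) (σ : Fin K → Fin N)
    {u v : Wd N} (hu : ∀ z ∈ lst u, σ (ρ z) = z) (hv : ∀ z ∈ lst v, σ (ρ z) = z)
    (h : Sat M (FreeSemigroup.map ρ u) (FreeSemigroup.map ρ v)) : Sat M u v := by
  intro θ
  have h1 := h fun x => θ (σ x)
  rw [lift_map, lift_map] at h1
  rw [lift_congr θ (fun x => θ (σ (ρ x))) u fun z hz => by rw [hu z hz],
    lift_congr θ (fun x => θ (σ (ρ x))) v fun z hz => by rw [hv z hz]]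
  exact h1

end Pool.Agent.Lib.MP_88bd66_lc
end

section

/-!
A finite list of identities which determines all identities.
-/

set_option autoImplicit false

namespace Pool.Agent.Lib.MP_88bd66_lc

open FreeSemigroup

/-- Words of length at most two. -/
def W2 : List (Wd 4) :=
  (List.finRange 4).map of ++
    (List.finRange 4).flatMap fun a => (List.finRange 4).map fun b => of a * of b

/-- A long power of a word. -/
def starW {N : ℕ} (c : ℕ) (u : Wd N) : Wd N := pw u c * pw u c * u

/-- The first letter. -/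
abbrev X0 : Wd 4 := of 0
/-- The second letter. -/
abbrev X1 : Wd 4 := of 1
/-- The third letter. -/
abbrev X2 : Wd 4 := of 2
/-- The fourth letter. -/
abbrev X3 : Wd 4 := of 3

/-- The finite list of identities. -/
def Elist (c : ℕ) : List (Wd 4 × Wd 4) :=
  [(pw X0 c * pw X0 c, pw X0 c), (X0 * X1 * X2 * X3, X0 * X2 * X1 * X3),
    (X0 * X1 * X2, X0 * X1 * pw X3 c * X2), (pw X0 c * pw X1 c, pw X1 c),
    (pw X1 c * pw X0 c, pw X1 c)] ++
  ((List.range (c + 1)).flatMap fun i => (List.range (c + 1)).map fun j =>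
    (pw X0 c * pw X0 i, pw X0 c * pw X0 j)) ++
  (W2.flatMap fun u => W2.map fun v => (u, v)) ++
  W2.map fun u => (u, starW c u)

section

variable {M : Type} [Semigroup M] {c : ℕ}

theorem axM_of_sat (h : ∀ e ∈ Elist c, e = (pw X0 c * pw X0 c, pw X0 c) ∨
    e = (X0 * X1 * X2 * X3, X0 * X2 * X1 * X3) ∨
    e = (X0 * X1 * X2, X0 * X1 * pw X3 c * X2) → Sat M e.1 e.2) : AxM c M := by
  refine ⟨fun x => ?_, fun x a b y => ?_, fun x a y z => ?_⟩
  · have := h (pw X0 c * pw X0 c, pw X0 c) (by simp [Elist]) (Or.inl rfl) (fun _ => x)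
    simpa [map_mul, pw_map] using this
  · have := h (X0 * X1 * X2 * X3, X0 * X2 * X1 * X3) (by simp [Elist]) (Or.inr (Or.inl rfl))
      ![x, a, b, y]
    simpa [map_mul, pw_map] using this
  · have := h (X0 * X1 * X2, X0 * X1 * pw X3 c * X2) (by simp [Elist]) (Or.inr (Or.inr rfl))
      ![x, a, y, z]
    simpa [map_mul, pw_map] using this

theorem AxM.sat (h : AxM c M) {e : Wd 4 × Wd 4} (he : e = (pw X0 c * pw X0 c, pw X0 c) ∨
    e = (X0 * X1 * X2 * X3, X0 * X2 * X1 * X3) ∨
    e = (X0 * X1 * X2, X0 * X1 * pw X3 c * X2)) : Sat M e.1 e.2 := by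
  rcases he with rfl | rfl | rfl
  · intro θ
    simp only [map_mul, pw_map]
    exact h.idem _
  · intro θ
    simp only [map_mul, lift_of]
    exact h.comm _ _ _ _
  · intro θ
    simp only [map_mul, pw_map, lift_of]
    exact h.ins _ _ _ _

end

theorem exists_form {N : ℕ} (u : Wd N) (h : 3 ≤ (lst u).length) :
    ∃ x m y, u = of x * m * of y := by
  obtain ⟨x, l⟩ := u
  rcases l with _ | ⟨a, l⟩
  · simp [lst] at h
  · obtain ⟨y, hy | ⟨w', hy⟩⟩ := exists_last (⟨a, l⟩ : Wd N)
    · have e : lst (⟨x, a :: l⟩ : Wd N) = x :: lst (⟨a, l⟩ : Wd N) := rfl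
      rw [e, hy] at h
      simp [lst_of] at h
    · refine ⟨x, w', y, ?_⟩
      have e : (⟨x, a :: l⟩ : Wd N) = of x * ⟨a, l⟩ := rfl
      rw [e, hy, mul_assoc]

theorem exists_short_form {N : ℕ} (u : Wd N) (h : (lst u).length ≤ 2) :
    (∃ a, u = of a) ∨ ∃ a b, u = of a * of b := by
  obtain ⟨x, l⟩ := u
  rcases l with _ | ⟨a, _ | ⟨b, l⟩⟩
  · exact Or.inl ⟨x, rfl⟩
  · exact Or.inr ⟨x, a, rfl⟩
  · simp [lst] at h

section

variable {M M' : Type} [Semigroup M] [Semigroup M'] {c : ℕ}

theorem long_transfer (h1 : AxM c M) (h2 : AxM c M')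
    (hE : ∀ e ∈ Elist c, Sat M e.1 e.2 → Sat M' e.1 e.2) {N : ℕ} (u v : Wd N)
    (hu : 3 ≤ (lst u).length) (hv : 3 ≤ (lst v).length) (huv : Sat M u v) : Sat M' u v := by
  obtain ⟨x, m, y, rfl⟩ := exists_form u hu
  obtain ⟨x', m', y', rfl⟩ := exists_form v hv
  obtain ⟨n1, n2, n3⟩ := h1.nec huv
  rw [wlast_mul, wlast_mul, wlast_of, wlast_of] at n2
  refine h2.suf ?_ ?_ ?_
  · rcases n1 with n1 | n1
    · exact Or.inl n1
    · right
      intro a b
      have := hE (pw X0 c * pw X1 c, pw X1 c) (by simp [Elist]) (fun θ => by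
        simp only [map_mul, pw_map]; exact n1 _ _) ![a, b, b, b]
      simpa [map_mul, pw_map] using this
  · rcases n2 with n2 | n2
    · exact Or.inl n2
    · right
      intro a b
      have := hE (pw X1 c * pw X0 c, pw X1 c) (by simp [Elist]) (fun θ => by
        simp only [map_mul, pw_map]; exact n2 _ _) ![a, b, b, b]
      simpa [map_mul, pw_map] using this
  · intro z a
    rw [h2.red a ((lst (of x * m * of y)).count z), h2.red a ((lst (of x' * m' * of y')).count z)]
    have hmod := fun k : ℕ => Nat.mod_lt k (Nat.succ_pos c)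
    have := hE (pw X0 c * pw X0 ((lst (of x * m * of y)).count z % (c + 1)),
      pw X0 c * pw X0 ((lst (of x' * m' * of y')).count z % (c + 1))) (by
        unfold Elist
        refine List.mem_append_left _ (List.mem_append_left _ (List.mem_append_right _ ?_))
        rw [List.mem_flatMap]
        refine ⟨_, List.mem_range.2 (hmod ((lst (of x * m * of y)).count z)), ?_⟩
        rw [List.mem_map]
        exact ⟨_, List.mem_range.2 (hmod _), rfl⟩) (fun θ => by
        simp only [map_mul, pw_map]
        rw [← h1.red, ← h1.red]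
        exact n3 z _) (fun _ => a)
    simpa [map_mul, pw_map] using this

theorem map_map_eq {N K : ℕ} (ρ : Fin N → Fin K) (σ : Fin K → Fin N) (u : Wd N)
    (hu : ∀ z ∈ lst u, σ (ρ z) = z) : FreeSemigroup.map σ (FreeSemigroup.map ρ u) = u := by
  induction u using FreeSemigroup.recOnMul with
  | ih1 x =>
    rw [FreeSemigroup.map_of, FreeSemigroup.map_of, hu x (by simp [lst_of])]
  | ih2 x w h1 h2 =>
    rw [map_mul, map_mul, h1 fun z hz => hu z (by
      rw [lst_mul]; exact List.mem_append_left _ hz), h2 fun z hz => hu z (by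
      rw [lst_mul]; exact List.mem_append_right _ hz)]

theorem exists_rename {N : ℕ} (l : Fin 4 → Fin N) :
    ∃ ρ : Fin N → Fin 4, ∀ i, l (ρ (l i)) = l i := by
  have : ∀ z : Fin N, ∃ i, (∃ j, l j = z) → l i = z := by
    intro z
    by_cases h : ∃ j, l j = z
    · obtain ⟨j, hj⟩ := h
      exact ⟨j, fun _ => hj⟩
    · exact ⟨0, fun h' => absurd h' h⟩
  choose ρ hρ using this
  exact ⟨ρ, fun i => hρ (l i) ⟨i, rfl⟩⟩

theorem short_mem {N : ℕ} (ρ : Fin N → Fin 4) (u : Wd N) (h : (lst u).length ≤ 2) :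
    FreeSemigroup.map ρ u ∈ W2 := by
  rcases exists_short_form u h with ⟨a, rfl⟩ | ⟨a, b, rfl⟩
  · simp [W2]
  · rw [map_mul, FreeSemigroup.map_of, FreeSemigroup.map_of]
    unfold W2
    refine List.mem_append_right _ ?_
    rw [List.mem_flatMap]
    refine ⟨ρ a, List.mem_finRange _, ?_⟩
    rw [List.mem_map]
    exact ⟨ρ b, List.mem_finRange _, rfl⟩

theorem rename_pair {N : ℕ} (u v : Wd N) (hu : (lst u).length ≤ 2) (hv : (lst v).length ≤ 2) :
    ∃ (ρ : Fin N → Fin 4) (σ : Fin 4 → Fin N), (∀ z ∈ lst u, σ (ρ z) = z) ∧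
      ∀ z ∈ lst v, σ (ρ z) = z := by
  have hl : ∃ l : Fin 4 → Fin N, (∀ z ∈ lst u, ∃ i, l i = z) ∧ ∀ z ∈ lst v, ∃ i, l i = z := by
    have h1 : ∀ w : Wd N, (lst w).length ≤ 2 → ∃ a b, ∀ z ∈ lst w, z = a ∨ z = b := by
      intro w hw
      rcases exists_short_form w hw with ⟨a, rfl⟩ | ⟨a, b, rfl⟩
      · exact ⟨a, a, fun z hz => by simp [lst_of] at hz; exact Or.inl hz⟩
      · exact ⟨a, b, fun z hz => by simpa [lst_of, lst_mul] using hz⟩
    obtain ⟨a, b, hab⟩ := h1 u hu
    obtain ⟨a', b', hab'⟩ := h1 v hv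
    refine ⟨![a, b, a', b'], fun z hz => ?_, fun z hz => ?_⟩
    · rcases hab z hz with h | h
      · exact ⟨0, h.symm⟩
      · exact ⟨1, h.symm⟩
    · rcases hab' z hz with h | h
      · exact ⟨2, h.symm⟩
      · exact ⟨3, h.symm⟩
  obtain ⟨l, h1, h2⟩ := hl
  obtain ⟨ρ, hρ⟩ := exists_rename l
  refine ⟨ρ, l, fun z hz => ?_, fun z hz => ?_⟩
  · obtain ⟨i, rfl⟩ := h1 z hz
    exact hρ i
  · obtain ⟨i, rfl⟩ := h2 z hz
    exact hρ i

theorem short_transfer (hE : ∀ e ∈ Elist c, Sat M e.1 e.2 → Sat M' e.1 e.2) {N : ℕ} (u v : Wd N)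
    (hu : (lst u).length ≤ 2) (hv : (lst v).length ≤ 2) (huv : Sat M u v) : Sat M' u v := by
  obtain ⟨ρ, σ, h1, h2⟩ := rename_pair u v hu hv
  have h3 := hE (FreeSemigroup.map ρ u, FreeSemigroup.map ρ v) (by
    unfold Elist
    refine List.mem_append_left _ (List.mem_append_right _ ?_)
    rw [List.mem_flatMap]
    refine ⟨_, short_mem ρ u hu, ?_⟩
    rw [List.mem_map]
    exact ⟨_, short_mem ρ v hv, rfl⟩) (sat_map ρ huv)
  have h4 := sat_map σ h3
  rwa [map_map_eq ρ σ u h1, map_map_eq ρ σ v h2] at h4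

theorem mixed_transfer (h1 : AxM c M) (h2 : AxM c M')
    (hE : ∀ e ∈ Elist c, Sat M e.1 e.2 → Sat M' e.1 e.2) {N : ℕ} (u v : Wd N)
    (hu : (lst u).length ≤ 2) (hv : 3 ≤ (lst v).length) (huv : Sat M u v) : Sat M' u v := by
  have hB := h1.base
  have hst : ∀ θ : Fin N → M, lift θ (starW c u) = lift θ u := by
    intro θ
    have hK : InK (lift θ v) := by
      obtain ⟨x, m, y, rfl⟩ := exists_form v hv
      rw [map_mul, map_mul, h1.ins _ _ _ (θ x)]
      exact ((hB.om _).left _).right _
    rw [← huv θ] at hK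
    unfold starW
    rw [map_mul, map_mul, pw_map, hB.idem, hB.om_mul hK]
  have h3 : Sat M u (starW c u) := fun θ => (hst θ).symm
  have hmap : ∀ {K L : ℕ} (ρ : Fin K → Fin L) (w : Wd K),
      FreeSemigroup.map ρ (starW c w) = starW c (FreeSemigroup.map ρ w) := by
    intro K L ρ w
    unfold starW
    rw [map_mul, map_mul, pw_map]
  have h4 : Sat M' u (starW c u) := by
    obtain ⟨ρ, σ, e1, _⟩ := rename_pair u u hu hu
    have h5 := hE (FreeSemigroup.map ρ u, starW c (FreeSemigroup.map ρ u)) (by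
      unfold Elist
      refine List.mem_append_right _ ?_
      rw [List.mem_map]
      exact ⟨_, short_mem ρ u hu, rfl⟩) (by
      have := sat_map ρ h3
      rwa [hmap] at this)
    have h6 := sat_map σ h5
    rwa [hmap, map_map_eq ρ σ u e1] at h6
  refine h4.trans (long_transfer h1 h2 hE _ v ?_ hv (h3.symm.trans huv))
  unfold starW
  rw [lst_mul, lst_mul, List.length_append, List.length_append]
  have hl : ∀ w : Wd N, 1 ≤ (lst w).length := fun w => List.length_pos_of_ne_nil (lst_ne_nil w)
  have := hl (pw u c)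
  have := hl u
  omega

/-- The finite list determines the identities. -/
theorem transfer (h1 : AxM c M) (h2 : AxM c M')
    (hE : ∀ e ∈ Elist c, Sat M e.1 e.2 → Sat M' e.1 e.2) : IdLe M M' := by
  intro N u v huv
  rcases le_or_gt (lst u).length 2 with hu | hu
  · rcases le_or_gt (lst v).length 2 with hv | hv
    · exact short_transfer hE u v hu hv huv
    · exact mixed_transfer h1 h2 hE u v hu hv huv
  · rcases le_or_gt (lst v).length 2 with hv | hv
    · exact (mixed_transfer h1 h2 hE v u hv hu huv.symm).symm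
    · exact long_transfer h1 h2 hE u v hu hv huv

end

end Pool.Agent.Lib.MP_88bd66_lc
end

section

/-!
Boolean combinations of identities are decidable from the multiplication table.
-/

set_option autoImplicit false

namespace Pool.Agent.Lib.MP_88bd66_lc

open FreeSemigroup

/-- Tables. -/
abbrev Tb := List (List ℕ)

/-- Table lookup. -/
def look (T : Tb) (i j : ℕ) : ℕ := (T.getD i []).getD j 0

/-- Assignments of four letters. -/
abbrev Asg := ℕ × ℕ × ℕ × ℕ

/-- The value of a letter. -/
def getl (y : Fin 4) (s : Asg) : ℕ :=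
  if y = 0 then s.1 else if y = 1 then s.2.1 else if y = 2 then s.2.2.1 else s.2.2.2

/-- The value of a word. -/
def evw (w : Wd 4) (T : Tb) (s : Asg) : ℕ :=
  w.tail.foldl (fun acc y => look T acc (getl y s)) (getl w.head s)

theorem primrec_getl (y : Fin 4) : Primrec (getl y) := by
  unfold getl
  by_cases h0 : y = 0
  · simp only [h0, if_true]
    exact Primrec.fst
  · by_cases h1 : y = 1
    · simp only [h1, if_true]
      exact Primrec.fst.comp Primrec.snd
    · by_cases h2 : y = 2
      · simp only [h2]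
        exact Primrec.fst.comp (Primrec.snd.comp Primrec.snd)
      · simp only [h0, h1, h2, if_false]
        exact Primrec.snd.comp (Primrec.snd.comp Primrec.snd)

theorem primrec_evw (w : Wd 4) : Primrec fun p : Tb × Asg => evw w p.1 p.2 := by
  have key : ∀ (l : List (Fin 4)) (f : Tb × Asg → ℕ), Primrec f →
      Primrec fun p : Tb × Asg => l.foldl (fun acc y => look p.1 acc (getl y p.2)) (f p) := by
    intro l
    induction l with
    | nil => intro f hf; exact hf
    | cons y l ih =>
      intro f hf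
      refine ih _ ?_
      unfold look
      exact (Primrec.list_getD 0).comp ((Primrec.list_getD []).comp Primrec.fst hf)
        ((primrec_getl y).comp Primrec.snd)
  exact key w.tail _ ((primrec_getl w.head).comp Primrec.snd)

/-- The identity holds in the table. -/
def SatT (u v : Wd 4) (T : Tb) : Prop :=
  ∀ a ∈ List.range T.length, ∀ b ∈ List.range T.length, ∀ d ∈ List.range T.length,
    ∀ e ∈ List.range T.length, evw u T (a, b, d, e) = evw v T (a, b, d, e)

theorem primrec_satT (u v : Wd 4) : PrimrecPred (SatT u v) := by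
  have h1 : PrimrecRel fun (e : ℕ) (x : Tb × ℕ × ℕ × ℕ) =>
      evw u x.1 (x.2.1, x.2.2.1, x.2.2.2, e) = evw v x.1 (x.2.1, x.2.2.1, x.2.2.2, e) := by
    have hs : Primrec fun p : ℕ × Tb × ℕ × ℕ × ℕ =>
        ((p.2.1, (p.2.2.1, p.2.2.2.1, p.2.2.2.2, p.1)) : Tb × Asg) :=
      Primrec.pair (Primrec.fst.comp Primrec.snd) (Primrec.pair
        (Primrec.fst.comp (Primrec.snd.comp Primrec.snd)) (Primrec.pair
          (Primrec.fst.comp (Primrec.snd.comp (Primrec.snd.comp Primrec.snd))) (Primrec.pair
            (Primrec.snd.comp (Primrec.snd.comp (Primrec.snd.comp Primrec.snd))) Primrec.fst)))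
    exact Primrec.eq.comp ((primrec_evw u).comp hs) ((primrec_evw v).comp hs)
  have hr : Primrec fun T : Tb => List.range T.length := Primrec.list_range.comp Primrec.list_length
  have h2 : PrimrecRel fun (d : ℕ) (x : Tb × ℕ × ℕ) => ∀ e ∈ List.range x.1.length,
      evw u x.1 (x.2.1, x.2.2, d, e) = evw v x.1 (x.2.1, x.2.2, d, e) := by
    have hs : Primrec fun p : ℕ × Tb × ℕ × ℕ =>
        ((p.2.1, (p.2.2.1, p.2.2.2, p.1)) : Tb × ℕ × ℕ × ℕ) :=
      Primrec.pair (Primrec.fst.comp Primrec.snd) (Primrec.pair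
        (Primrec.fst.comp (Primrec.snd.comp Primrec.snd)) (Primrec.pair
          (Primrec.snd.comp (Primrec.snd.comp Primrec.snd)) Primrec.fst))
    exact h1.forall_mem_list.comp (hr.comp (Primrec.fst.comp Primrec.snd)) hs
  have h3 : PrimrecRel fun (b : ℕ) (x : Tb × ℕ) => ∀ d ∈ List.range x.1.length,
      ∀ e ∈ List.range x.1.length, evw u x.1 (x.2, b, d, e) = evw v x.1 (x.2, b, d, e) := by
    have hs : Primrec fun p : ℕ × Tb × ℕ => ((p.2.1, (p.2.2, p.1)) : Tb × ℕ × ℕ) :=
      Primrec.pair (Primrec.fst.comp Primrec.snd) (Primrec.pair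
        (Primrec.snd.comp Primrec.snd) Primrec.fst)
    exact h2.forall_mem_list.comp (hr.comp (Primrec.fst.comp Primrec.snd)) hs
  have h4 : PrimrecRel fun (a : ℕ) (T : Tb) => ∀ b ∈ List.range T.length,
      ∀ d ∈ List.range T.length, ∀ e ∈ List.range T.length,
        evw u T (a, b, d, e) = evw v T (a, b, d, e) := by
    have hs : Primrec fun p : ℕ × Tb => ((p.2, p.1) : Tb × ℕ) :=
      Primrec.pair Primrec.snd Primrec.fst
    exact h3.forall_mem_list.comp (hr.comp Primrec.snd) hs
  exact h4.forall_mem_list.comp hr Primrec.id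

theorem table_length {n : ℕ} (s : Semigroup (Fin n)) : (table s).length = n := by simp [table]

theorem look_table {n : ℕ} (s : Semigroup (Fin n)) (i j : Fin n) :
    look (table s) i j = (s.mul i j : ℕ) := by
  unfold look table
  have h1 : (List.ofFn fun i => List.ofFn fun j => (s.mul i j : ℕ)).getD i [] =
      List.ofFn fun j => (s.mul i j : ℕ) := by
    rw [List.getD_eq_getElem _ _ (by simp)]
    simp
  rw [h1, List.getD_eq_getElem _ _ (by simp)]
  simp

theorem evw_table {n : ℕ} (s : Semigroup (Fin n)) (w : Wd 4) (θ : Fin 4 → Fin n) :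
    evw w (table s) ((θ 0 : ℕ), (θ 1 : ℕ), (θ 2 : ℕ), (θ 3 : ℕ)) =
      (@lift (Fin 4) (Fin n) s θ w : Fin n).val := by
  have hg : ∀ y, getl y ((θ 0 : ℕ), (θ 1 : ℕ), (θ 2 : ℕ), (θ 3 : ℕ)) = (θ y : ℕ) := by
    intro y
    fin_cases y <;> simp [getl]
  obtain ⟨x, l⟩ := w
  unfold evw
  rw [@lift_mk_eq_foldl (Fin 4) (Fin n) s]
  simp only [hg]
  have key : ∀ (l : List (Fin 4)) (a : Fin n),
      l.foldl (fun acc y => look (table s) acc (θ y : ℕ)) (a : ℕ) =
        ((l.foldl (fun a y => s.mul a (θ y)) a : Fin n) : ℕ) := by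
    intro l
    induction l with
    | nil => intro a; rfl
    | cons y l ih =>
      intro a
      rw [List.foldl_cons, List.foldl_cons, ← ih]
      congr 1
      exact look_table s a (θ y)
  exact key l (θ x)

theorem satT_iff {n : ℕ} (s : Semigroup (Fin n)) (u v : Wd 4) :
    SatT u v (table s) ↔ @Sat (Fin n) s 4 u v := by
  unfold SatT
  rw [table_length]
  constructor
  · intro h θ
    have := h (θ 0) (List.mem_range.2 (θ 0).2) (θ 1) (List.mem_range.2 (θ 1).2) (θ 2)
      (List.mem_range.2 (θ 2).2) (θ 3) (List.mem_range.2 (θ 3).2)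
    rw [evw_table, evw_table] at this
    exact Fin.ext this
  · intro h a ha b hb d hd e he
    rw [List.mem_range] at ha hb hd he
    have h1 := congrArg Fin.val (h ![⟨a, ha⟩, ⟨b, hb⟩, ⟨d, hd⟩, ⟨e, he⟩])
    rw [← evw_table, ← evw_table] at h1
    exact h1

theorem primrec_profile (Ps : List (Tb → Prop)) (hP : ∀ P ∈ Ps, PrimrecPred P)
    (h : List Prop → Prop) : PrimrecPred fun T => h (Ps.map fun P => P T) := by
  induction Ps generalizing h with
  | nil =>
    exact ⟨fun _ => Classical.dec (h []), Primrec.const (@decide (h []) (Classical.dec (h [])))⟩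
  | cons P Ps ih =>
    have hP1 := hP P (by simp)
    have hP2 : ∀ Q ∈ Ps, PrimrecPred Q := fun Q hQ => hP Q (by simp [hQ])
    have h1 := ih hP2 fun l => h (True :: l)
    have h0 := ih hP2 fun l => h (False :: l)
    refine ((hP1.and h1).or (hP1.not.and h0)).of_eq fun T => ?_
    rw [List.map_cons]
    by_cases hT : P T
    · have : P T = True := eq_true hT
      simp [this]
    · have : P T = False := eq_false hT
      simp [this]

end Pool.Agent.Lib.MP_88bd66_lc
end

section

/-!
Decidability of kernels.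
-/

set_option autoImplicit false

namespace Pool.Agent.Lib.MP_88bd66_lc

open FreeSemigroup

/-- Images of products of semigroups with at most `t` elements. -/
def Bdd (t : ℕ) (S : FinSgrp) : Prop :=
  ∃ (k : ℕ) (T : Fin k → Type) (_ : ∀ i, Semigroup (T i)), (∀ i, Finite (T i)) ∧
    (∀ i, Nat.card (T i) ≤ t) ∧ ∃ f : (∀ i, T i) →ₙ* S.carrier, Function.Surjective f

theorem bdd_of_mem {t : ℕ} {C : Set FinSgrp} (hC : ∀ S ∈ C, Nat.card S.carrier ≤ t)
    {S : FinSgrp} (hS : S ∈ opH (opP C)) : Bdd t S := by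
  obtain ⟨Q, ⟨n, _, T, hT, ⟨e⟩⟩, f, hf⟩ := hS
  refine ⟨n, fun i => (T i).carrier, fun i => inferInstance, fun i => inferInstance,
    fun i => hC _ (hT i), f.comp (e.symm : (∀ i, (T i).carrier) →ₙ* Q.carrier), ?_⟩
  exact hf.comp e.symm.surjective

theorem FiniteClass.bound {Φ : Set FinSgrp} (h : FiniteClass Φ) :
    ∃ t, 1 ≤ t ∧ ∀ S ∈ Φ, Nat.card S.carrier ≤ t := by
  obtain ⟨L, hL, hΦ⟩ := h
  obtain ⟨t, ht⟩ := (hL.image fun S => Nat.card S.carrier).bddAbove
  refine ⟨t + 1, by omega, fun S hS => ?_⟩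
  obtain ⟨T, hT, ⟨e⟩⟩ := hΦ S hS
  have h1 : Nat.card T.carrier ≤ t := ht ⟨T, hT, rfl⟩
  rw [Nat.card_congr e.toEquiv]
  omega

theorem card_opS {t : ℕ} {Φ : Set FinSgrp} (h : ∀ S ∈ Φ, Nat.card S.carrier ≤ t) :
    ∀ S ∈ opS Φ, Nat.card S.carrier ≤ t := by
  rintro S ⟨T, hT, f, hf⟩
  exact (Nat.card_le_card_of_injective f hf).trans (h T hT)

theorem hyp_of_mem {t : ℕ} {K : Set FinSgrp → Set FinSgrp} {Φ : Set FinSgrp}
    (hK : ∀ S ∈ K Φ, Bdd t S) {M : FinSgrp} (hM : M ∈ Cor K Φ) : Hyp t M.carrier := by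
  intro S sg hfin hne hle
  exact hK (FinSgrp.mk S) (hM.2 (mem_HSP_of_idLe (S := FinSgrp.mk S) hle))

theorem mem_of_idLe {K : Set FinSgrp → Set FinSgrp} {Φ : Set FinSgrp} {M M' : FinSgrp}
    (hM : M ∈ Cor K Φ) (h : IdLe M.carrier M'.carrier) : M' ∈ Cor K Φ := by
  refine ⟨hM.2 (mem_HSP_of_idLe h), fun N hN => hM.2 (mem_HSP_of_idLe ?_)⟩
  exact h.trans (idLe_of_mem_HSP hN)

theorem axM_of_mem {t : ℕ} (ht : 1 ≤ t) {K : Set FinSgrp → Set FinSgrp} {Φ : Set FinSgrp}
    (hK : ∀ S ∈ K Φ, Bdd t S) {M : FinSgrp} (hM : M ∈ Cor K Φ) :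
    AxM (t.factorial - 1) M.carrier := by
  have hyp := hyp_of_mem hK hM
  have hA := thmA ht hyp
  exact ⟨hyp.idem ht, hA.1, hA.2⟩

theorem decidable_cor {t : ℕ} (ht : 1 ≤ t) (K : Set FinSgrp → Set FinSgrp) (Φ : Set FinSgrp)
    (hK : ∀ S ∈ K Φ, Bdd t S) : DecidableClass (Cor K Φ) := by
  obtain ⟨c, hc⟩ : ∃ c, t.factorial - 1 = c := ⟨_, rfl⟩
  let h : List Prop → Prop := fun l =>
    ∃ M ∈ Cor K Φ, (Elist c).map (fun e => Sat M.carrier e.1 e.2) = l
  obtain ⟨inst, hp⟩ := primrec_profile ((Elist c).map fun e => SatT e.1 e.2) (by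
    intro P hP
    rw [List.mem_map] at hP
    obtain ⟨e, _, rfl⟩ := hP
    exact primrec_satT _ _) h
  refine ⟨_, hp.to_comp, ?_⟩
  intro n ne s
  rw [decide_eq_true_iff]
  have e1 : ((Elist c).map fun e => SatT e.1 e.2).map (fun P => P (table s)) =
      (Elist c).map fun e => @Sat (Fin n) s 4 e.1 e.2 := by
    rw [List.map_map]
    refine List.map_congr_left fun e _ => ?_
    exact propext (satT_iff s e.1 e.2)
  change h (((Elist c).map fun e => SatT e.1 e.2).map (fun P => P (table s))) ↔ _
  rw [e1]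
  constructor
  · rintro ⟨M, hM, hprof⟩
    have hpt : ∀ e ∈ Elist c, Sat M.carrier e.1 e.2 = @Sat (Fin n) s 4 e.1 e.2 :=
      List.map_inj_left.1 hprof
    have hAM : AxM c M.carrier := by
      rw [← hc]; exact axM_of_mem ht hK hM
    have hAM' : @AxM c (Fin n) s := @axM_of_sat (Fin n) s c fun e he he' => by
      rw [← hpt e he]
      exact hAM.sat he'
    have hle : @IdLe M.carrier (Fin n) _ s :=
      @transfer M.carrier (Fin n) _ s c hAM hAM' fun e he hs => by
        rw [← hpt e he]
        exact hs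
    exact mem_of_idLe hM hle
  · intro hM
    exact ⟨_, hM, rfl⟩

/-- The kernels of `HP` and `HPS` are decidable. -/
theorem main (K : Set FinSgrp → Set FinSgrp)
    (hK : K = (fun C => opH (opP C)) ∨ K = (fun C => opH (opP (opS C)))) (Φ : Set FinSgrp)
    (hΦ : FiniteClass Φ) : DecidableClass (Cor K Φ) := by
  obtain ⟨t, ht, hbd⟩ := hΦ.bound
  rcases hK with rfl | rfl
  · exact decidable_cor ht _ Φ fun S hS => bdd_of_mem hbd hS
  · exact decidable_cor ht _ Φ fun S hS => bdd_of_mem (card_opS hbd) hS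

end Pool.Agent.Lib.MP_88bd66_lc
end
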