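import Pool.Agent.Lib.MP_88bd66_lc.Defs

section

section

/-!
Words, identities, relatively free semigroups.
-/

set_option autoImplicit false

namespace Pool.Agent.Lib.MP_88bd66_lc

open FreeSemigroup

/-- Words over `N` letters. -/
abbrev Wd (N : ℕ) := FreeSemigroup (Fin N)

/-- The identity `u = v` holds in `M`. -/
def Sat (M : Type) [Semigroup M] {N : ℕ} (u v : Wd N) : Prop :=
  ∀ θ : Fin N → M, lift θ u = lift θ v

section

variable {M : Type} [Semigroup M] {N : ℕ}

theorem Sat.rfl {u : Wd N} : Sat M u u := fun _ => Eq.refl _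

theorem Sat.symm {u v : Wd N} (h : Sat M u v) : Sat M v u := fun θ => (h θ).symm

theorem Sat.trans {u v w : Wd N} (h : Sat M u v) (h' : Sat M v w) : Sat M u w :=
  fun θ => (h θ).trans (h' θ)

theorem Sat.mul {u v u' v' : Wd N} (h : Sat M u v) (h' : Sat M u' v') :
    Sat M (u * u') (v * v') := fun θ => by rw [map_mul, map_mul, h θ, h' θ]

end

/-- `S` satisfies all identities of `M`. -/
def IdLe (M S : Type) [Semigroup M] [Semigroup S] : Prop :=
  ∀ (N : ℕ) (u v : Wd N), Sat M u v → Sat S u v

/-- `pw x k` is `x` to the power `k + 1`. -/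
def pw {M : Type} [Semigroup M] (x : M) : ℕ → M
  | 0 => x
  | k + 1 => pw x k * x

section

variable {M S : Type} [Semigroup M] [Semigroup S]

theorem pw_zero (x : M) : pw x 0 = x := rfl

theorem pw_succ (x : M) (k : ℕ) : pw x (k + 1) = pw x k * x := rfl

theorem pw_add (x : M) (a b : ℕ) : pw x a * pw x b = pw x (a + b + 1) := by
  induction b with
  | zero => rfl
  | succ b ih => rw [pw_succ, ← mul_assoc, ih]; rfl

theorem pw_succ' (x : M) (k : ℕ) : pw x (k + 1) = x * pw x k := by
  have := pw_add x 0 k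
  rw [pw_zero] at this
  rw [this]
  congr 1
  omega

theorem pw_comm (x : M) (a b : ℕ) : pw x a * pw x b = pw x b * pw x a := by
  rw [pw_add, pw_add]; congr 1; omega

theorem pw_map (f : M →ₙ* S) (x : M) (a : ℕ) : f (pw x a) = pw (f x) a := by
  induction a with
  | zero => rfl
  | succ a ih => rw [pw_succ, map_mul, ih]; rfl

theorem pw_pw (x : M) (a b : ℕ) : pw (pw x a) b = pw x (a * b + a + b) := by
  induction b with
  | zero => rw [pw_zero]; congr 1; omega
  | succ b ih => rw [pw_succ, ih, pw_add]; congr 1; ring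

end

/-! ### Identities and pseudovarieties -/

theorem idLe_of_surj {M S : Type} [Semigroup M] [Semigroup S] (f : M →ₙ* S)
    (hf : Function.Surjective f) : IdLe M S := by
  intro N u v h θ
  choose g hg using hf
  have e : ∀ w : Wd N, lift θ w = f (lift (fun x => g (θ x)) w) := by
    intro w
    have : lift θ = f.comp (lift (fun x => g (θ x))) := by
      ext x
      simp [hg]
    rw [this]
    rfl
  rw [e, e, h]

theorem idLe_of_inj {M S : Type} [Semigroup M] [Semigroup S] (f : S →ₙ* M)
    (hf : Function.Injective f) : IdLe M S := by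
  intro N u v h θ
  apply hf
  have e : ∀ w : Wd N, f (lift θ w) = lift (fun x => f (θ x)) w := by
    intro w
    have : f.comp (lift θ) = lift (fun x => f (θ x)) := by
      ext x
      simp
    rw [← this]
    rfl
  rw [e, e, h]

theorem idLe_pi {M : Type} [Semigroup M] {ι : Type} (T : ι → Type) [∀ i, Semigroup (T i)]
    (h : ∀ i, IdLe M (T i)) : IdLe M (∀ i, T i) := by
  intro N u v huv θ
  funext i
  have e : ∀ w : Wd N, (lift θ w) i = lift (fun x => θ x i) w := by
    intro w
    let pr : (∀ i, T i) →ₙ* T i := ⟨fun p => p i, fun _ _ => rfl⟩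
    have : pr.comp (lift θ) = lift (fun x => θ x i) := by
      ext x
      simp [pr]
    rw [← this]
    rfl
  rw [e, e, h i N u v huv]

theorem IdLe.trans {M S R : Type} [Semigroup M] [Semigroup S] [Semigroup R] (h : IdLe M S)
    (h' : IdLe S R) : IdLe M R := fun N u v huv => h' N u v (h N u v huv)

theorem IdLe.rfl {M : Type} [Semigroup M] : IdLe M M := fun _ _ _ h => h

theorem idLe_of_mem_HSP {M S : FinSgrp} (h : S ∈ opH (opS (opP {M}))) :
    IdLe M.carrier S.carrier := by
  obtain ⟨R, ⟨Q, ⟨n, _, T, hT, ⟨e⟩⟩, g, hg⟩, f, hf⟩ := h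
  refine IdLe.trans (IdLe.trans (IdLe.trans (idLe_pi (fun i => (T i).carrier) fun i => ?_)
    (idLe_of_inj (e : Q.carrier →ₙ* _) e.injective)) (idLe_of_inj g hg)) (idLe_of_surj f hf)
  rw [hT i]
  exact IdLe.rfl

theorem mem_HSP_of_idLe {M S : FinSgrp} (h : IdLe M.carrier S.carrier) :
    S ∈ opH (opS (opP {M})) := by
  classical
  have := Fintype.ofFinite S.carrier
  have := Fintype.ofFinite M.carrier
  let N := Fintype.card S.carrier
  let e : Fin N ≃ S.carrier := (Fintype.equivFin S.carrier).symm
  let n := Fintype.card (Fin N → M.carrier)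
  let a : Fin n ≃ (Fin N → M.carrier) := (Fintype.equivFin _).symm
  let ev : Wd N →ₙ* (Fin n → M.carrier) :=
    ⟨fun w i => lift (a i) w, fun u v => by funext i; simp⟩
  let R : Subsemigroup (Fin n → M.carrier) := MulHom.srange ev
  have hR : ∀ r : R, ∃ w, ev w = r.1 := fun r => r.2
  choose g hg using hR
  have key : ∀ u v : Wd N, ev u = ev v → lift e u = lift e v := by
    intro u v huv
    apply h N u v
    intro θ
    have := congrFun huv (a.symm θ)
    simpa [ev] using this
  let f : R →ₙ* S.carrier :=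
    ⟨fun r => lift e (g r), fun r s => by
      rw [← map_mul]
      apply key
      rw [map_mul, hg, hg, hg]
      rfl⟩
  have hf : Function.Surjective f := by
    intro s
    refine ⟨⟨ev (of (e.symm s)), ⟨_, rfl⟩⟩, ?_⟩
    have : lift e (g ⟨ev (of (e.symm s)), ⟨_, rfl⟩⟩) = lift e (of (e.symm s)) :=
      key _ _ (hg _)
    change lift e (g ⟨ev (of (e.symm s)), ⟨_, rfl⟩⟩) = s
    rw [this]
    simp
  have hRne : Nonempty R := by
    obtain ⟨s⟩ := S.nonempty
    exact ⟨⟨ev (of (e.symm s)), ⟨_, rfl⟩⟩⟩
  refine ⟨⟨R⟩, ⟨⟨Fin n → M.carrier⟩, ⟨n, Fintype.card_pos, fun _ => M, fun i => rfl,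
    ⟨MulEquiv.refl _⟩⟩, MulMemClass.subtype R, Subtype.val_injective⟩, f, hf⟩

/-! ### The relatively free semigroup -/

/-- The congruence of the identities of `M`. -/
def idCon (M : Type) [Semigroup M] (N : ℕ) : Con (Wd N) where
  r := Sat M
  iseqv := ⟨fun _ => Sat.rfl, fun h => h.symm, fun h h' => h.trans h'⟩
  mul' := fun h h' => h.mul h'

instance finite_free (M : Type) [Semigroup M] [Finite M] (N : ℕ) :
    Finite (idCon M N).Quotient := by
  let g : (idCon M N).Quotient → ((Fin N → M) → M) :=
    fun q => Quotient.liftOn' q (fun w θ => lift θ w) fun u v huv => funext fun θ => huv θ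
  refine Finite.of_injective g ?_
  intro p q
  induction p using Con.induction_on with
  | H u =>
    induction q using Con.induction_on with
    | H v =>
      intro h
      rw [Con.eq]
      intro θ
      exact congrFun h θ

theorem idLe_free (M : Type) [Semigroup M] (N : ℕ) : IdLe M (idCon M N).Quotient := by
  intro K u v huv θ
  have hθ : ∀ x, ∃ w : Wd N, ((w : (idCon M N).Quotient)) = θ x := fun x => by
    induction θ x using Con.induction_on with
    | H w => exact ⟨w, rfl⟩
  choose g hg using hθ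
  let q : Wd N →ₙ* (idCon M N).Quotient := ⟨fun w => (w : (idCon M N).Quotient), fun _ _ => rfl⟩
  have e : ∀ w : Wd K, lift θ w = ((lift g w : Wd N) : (idCon M N).Quotient) := by
    intro w
    have : lift θ = q.comp (lift g) := by
      ext x
      simp only [Function.comp_apply, lift_of, MulHom.coe_comp]
      exact (hg x).symm
    rw [this]
    rfl
  rw [e, e, Con.eq]
  intro η
  have e2 : ∀ w : Wd K, lift η (lift g w) = lift (fun x => lift η (g x)) w := by
    intro w
    have : (lift η).comp (lift g) = lift (fun x => lift η (g x)) := by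
      ext x
      simp
    rw [← this]
    rfl
  rw [e2, e2, huv]

/-! ### Mixing data -/

/-- A surjection of a product of semigroups with at most `t` elements onto the relatively free
semigroup, in terms of words. -/
structure MixData (t : ℕ) (M : Type) [Semigroup M] (N : ℕ) where
  k : ℕ
  T : Fin k → Type
  sg : ∀ i, Semigroup (T i)
  fin : ∀ i, Finite (T i)
  card : ∀ i, Nat.card (T i) ≤ t
  W : (∀ i, T i) → Wd N
  hW : ∀ p q : ∀ i, T i, Sat M (W (p * q)) (W p * W q)
  m : Fin N → ∀ i, T i
  hm : ∀ x, Sat M (W (m x)) (of x)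

attribute [instance] MixData.sg MixData.fin

/-- Every finite semigroup satisfying the identities of `M` is an image of a product of
semigroups with at most `t` elements. -/
def Hyp (t : ℕ) (M : Type) [Semigroup M] : Prop :=
  ∀ (S : Type) (_ : Semigroup S), Finite S → Nonempty S → IdLe M S →
    ∃ (k : ℕ) (T : Fin k → Type) (_ : ∀ i, Semigroup (T i)), (∀ i, Finite (T i)) ∧
      (∀ i, Nat.card (T i) ≤ t) ∧ ∃ f : (∀ i, T i) →ₙ* S, Function.Surjective f

theorem Hyp.mix {t : ℕ} {M : Type} [Semigroup M] [Finite M] (h : Hyp t M) (N : ℕ) (hN : 0 < N) :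
    Nonempty (MixData t M N) := by
  have hne : Nonempty (idCon M N).Quotient := ⟨((of ⟨0, hN⟩ : Wd N) : (idCon M N).Quotient)⟩
  obtain ⟨k, T, sg, fin, card, f, hf⟩ :=
    h (idCon M N).Quotient inferInstance inferInstance hne (idLe_free M N)
  have hw : ∀ p : ∀ i, T i, ∃ w : Wd N, (w : (idCon M N).Quotient) = f p := fun p => by
    induction f p using Con.induction_on with
    | H w => exact ⟨w, rfl⟩
  choose W hW using hw
  have hm : ∀ x : Fin N, ∃ p, f p = ((of x : Wd N) : (idCon M N).Quotient) := fun x => hf _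
  choose m hm using hm
  refine ⟨⟨k, T, sg, fin, card, W, ?_, m, ?_⟩⟩
  · intro p q
    have : ((W (p * q) : Wd N) : (idCon M N).Quotient) = ((W p * W q : Wd N) : _) := by
      rw [hW, map_mul, ← hW, ← hW]
      rfl
    exact (Con.eq _).1 this
  · intro x
    have : ((W (m x) : Wd N) : (idCon M N).Quotient) = ((of x : Wd N) : _) := by
      rw [hW, hm]
    exact (Con.eq _).1 this

end Pool.Agent.Lib.MP_88bd66_lc
end

section

/-!
The minimal ideal.
-/

set_option autoImplicit false

namespace Pool.Agent.Lib.MP_88bd66_lc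

open FreeSemigroup

/-! ### Mixing coordinates -/

section

variable {k : ℕ} {T : Fin k → Type}

/-- `p` on the coordinates in `A`, `q` elsewhere. -/
def mix (A : Finset (Fin k)) (p q : ∀ i, T i) : ∀ i, T i := fun i => if i ∈ A then p i else q i

theorem mix_mul [∀ i, Semigroup (T i)] (A : Finset (Fin k)) (p q p' q' : ∀ i, T i) :
    mix A p q * mix A p' q' = mix A (p * p') (q * q') := by
  funext i
  simp only [mix, Pi.mul_apply]
  split_ifs <;> rfl

theorem mix_univ (p q : ∀ i, T i) : mix Finset.univ p q = p := by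
  funext i; simp [mix]

theorem mix_empty (p q : ∀ i, T i) : mix ∅ p q = q := by
  funext i; simp [mix]

theorem mix_self (A : Finset (Fin k)) (p : ∀ i, T i) : mix A p p = p := by
  funext i; simp [mix]

theorem mix_compl (A : Finset (Fin k)) (p q : ∀ i, T i) : mix Aᶜ p q = mix A q p := by
  funext i
  simp only [mix, Finset.mem_compl]
  by_cases h : i ∈ A <;> simp [h]

theorem exists_switch (Q : Finset (Fin k) → Prop) (h0 : ¬ Q ∅) (h1 : Q Finset.univ) :
    ∃ A l, l ∉ A ∧ ¬ Q A ∧ Q (insert l A) := by
  by_contra hcon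
  push Not at hcon
  have : ∀ A : Finset (Fin k), ¬ Q A := by
    intro A
    induction A using Finset.induction_on with
    | empty => exact h0
    | insert l A hl ih => exact hcon A l hl ih
  exact this _ h1

end

/-! ### Letters of words -/

/-- The list of letters of a word. -/
def lst {N : ℕ} (w : Wd N) : List (Fin N) := w.head :: w.tail

theorem lst_mul {N : ℕ} (u v : Wd N) : lst (u * v) = lst u ++ lst v := rfl

theorem lst_of {N : ℕ} (x : Fin N) : lst (of x : Wd N) = [x] := rfl

theorem lst_ne_nil {N : ℕ} (w : Wd N) : lst w ≠ [] := List.cons_ne_nil _ _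

theorem lst_inj {N : ℕ} {u v : Wd N} (h : lst u = lst v) : u = v := by
  obtain ⟨x, l⟩ := u
  obtain ⟨y, l'⟩ := v
  simp only [lst, List.cons.injEq] at h
  rw [h.1, h.2]

section

variable {M : Type} [Semigroup M] {N : ℕ}

theorem lift_const (θ : Fin N → M) (z : M) (w : Wd N) (h : ∀ y ∈ lst w, θ y = z) :
    ∃ j, lift θ w = pw z j := by
  induction w using FreeSemigroup.recOnMul with
  | ih1 x => exact ⟨0, by rw [lift_of, h x (by simp [lst_of])]; rfl⟩
  | ih2 x w _ ih =>
    obtain ⟨j, hj⟩ := ih fun y hy => h y (by rw [lst_mul]; exact List.mem_append_right _ hy)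
    refine ⟨j + 1, ?_⟩
    rw [map_mul, lift_of, hj, h x (by rw [lst_mul, lst_of]; simp), pw_succ']

theorem lift_factor (θ : Fin N → M) (x : Fin N) (w : Wd N) (h : x ∈ lst w) (c d : M) :
    ∃ a b, c * lift θ w * d = a * θ x * b := by
  induction w using FreeSemigroup.recOnMul generalizing c with
  | ih1 y =>
    rw [lst_of, List.mem_singleton] at h
    exact ⟨c, d, by rw [lift_of, h]⟩
  | ih2 y w _ ih =>
    rw [lst_mul, lst_of, List.mem_append, List.mem_singleton] at h
    rcases h with h | h
    · refine ⟨c, lift θ w * d, ?_⟩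
      rw [map_mul, lift_of, h]
      simp only [mul_assoc]
    · obtain ⟨a, b, hab⟩ := ih h (c * θ y)
      refine ⟨a, b, ?_⟩
      rw [← hab, map_mul, lift_of]
      simp only [mul_assoc]

theorem lift_congr (θ θ' : Fin N → M) (w : Wd N) (h : ∀ y ∈ lst w, θ y = θ' y) :
    lift θ w = lift θ' w := by
  induction w using FreeSemigroup.recOnMul with
  | ih1 x => rw [lift_of, lift_of]; exact h x (by simp [lst_of])
  | ih2 x w _ ih =>
    rw [map_mul, map_mul, lift_of, lift_of, h x (by rw [lst_mul, lst_of]; simp),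
      ih fun y hy => h y (by rw [lst_mul]; exact List.mem_append_right _ hy)]

end

/-! ### Content is not an invariant -/

theorem exists_coll {t N : ℕ} {T : Type} [Finite T] (hc : Nat.card T ≤ t) (hN : t < N)
    (g : Fin N → T) : ∃ x y, x ≠ y ∧ g x = g y := by
  have := Fintype.ofFinite T
  rw [Nat.card_eq_fintype_card] at hc
  exact Fintype.exists_ne_map_eq_of_card_lt g (by rw [Fintype.card_fin]; omega)

theorem step1 {t : ℕ} {M : Type} [Semigroup M] (D : MixData t M (t + 1)) (ht : 1 ≤ t) :
    ∃ (u v : Wd (t + 1)) (x : Fin (t + 1)), Sat M u v ∧ x ∈ lst v ∧ x ∉ lst u := by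
  have hcol : ∀ i, ∃ y y', y ≠ y' ∧ D.m y i = D.m y' i := fun i =>
    exists_coll (D.card i) (Nat.lt_succ_self t) fun y => D.m y i
  choose y y' hy hyy using hcol
  let p : ∀ i, D.T i := fun i => D.m (y i) i
  let x := (D.W p).head
  have hδ : ∀ i, ∃ δ, δ ≠ x ∧ D.m δ i = p i := by
    intro i
    by_cases h : y i = x
    · exact ⟨y' i, fun h' => hy i (h.trans h'.symm), (hyy i).symm⟩
    · exact ⟨y i, h, rfl⟩
  choose δ hδ hδp using hδ
  obtain ⟨z, hz⟩ : ∃ z : Fin (t + 1), z ≠ x := by
    have : Nontrivial (Fin (t + 1)) := Fin.nontrivial_iff_two_le.2 (by omega)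
    exact exists_ne x
  have hw : ∀ (l : List (Fin D.k)) (s : ∀ i, D.T i) (w : Wd (t + 1)), Sat M (D.W s) w →
      Sat M (D.W (l.foldl (fun a i => a * D.m (δ i)) s)) (l.foldl (fun a i => a * of (δ i)) w) := by
    intro l
    induction l with
    | nil => intro s w h; exact h
    | cons i l ih =>
      intro s w h
      exact ih _ _ ((D.hW _ _).trans (h.mul (D.hm _)))
  have hx : ∀ (l : List (Fin D.k)) (w : Wd (t + 1)), x ∉ lst w →
      x ∉ lst (l.foldl (fun a i => a * of (δ i)) w) := by
    intro l
    induction l with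
    | nil => intro w h; exact h
    | cons i l ih =>
      intro w h
      refine ih _ ?_
      rw [lst_mul, lst_of, List.mem_append, List.mem_singleton]
      rintro (h' | h')
      · exact h h'
      · exact hδ i h'.symm
  have hr : ∀ (l : List (Fin D.k)) (s : ∀ i, D.T i) (i : Fin D.k) (d : D.T i),
      ∃ b, (l.foldl (fun a i => a * D.m (δ i)) s) i * d = s i * b := by
    intro l
    induction l with
    | nil => intro s i d; exact ⟨d, rfl⟩
    | cons j l ih =>
      intro s i d
      obtain ⟨b, hb⟩ := ih (s * D.m (δ j)) i d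
      refine ⟨D.m (δ j) i * b, ?_⟩
      rw [List.foldl_cons, hb, Pi.mul_apply, mul_assoc]
  have hf : ∀ (l : List (Fin D.k)) (s : ∀ i, D.T i) (i : Fin D.k) (d : D.T i), i ∈ l →
      ∃ a b, (l.foldl (fun a i => a * D.m (δ i)) s) i * d = a * p i * b := by
    intro l
    induction l with
    | nil => intro s i d h; simp at h
    | cons j l ih =>
      intro s i d h
      rcases List.mem_cons.1 h with h | h
      · subst h
        obtain ⟨b, hb⟩ := hr l (s * D.m (δ i)) i d
        refine ⟨s i, b, ?_⟩
        rw [List.foldl_cons, hb, Pi.mul_apply, hδp]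
      · obtain ⟨a, b, hab⟩ := ih (s * D.m (δ j)) i d h
        exact ⟨a, b, by rw [List.foldl_cons, hab]⟩
  have hab : ∀ i, ∃ a b, ((List.finRange D.k).foldl (fun a i => a * D.m (δ i)) (D.m z) *
      D.m z) i = a * p i * b := fun i => hf _ _ i _ (List.mem_finRange i)
  choose a b hab using hab
  have hab' : (List.finRange D.k).foldl (fun a i => a * D.m (δ i)) (D.m z) * D.m z =
      a * p * b := funext hab
  refine ⟨(List.finRange D.k).foldl (fun a i => a * of (δ i)) (of z) * of z,
    D.W a * D.W p * D.W b, x, ?_, ?_, ?_⟩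
  · have h1 := (hw (List.finRange D.k) (D.m z) (of z) (D.hm z)).mul (D.hm z)
    have h2 := D.hW ((List.finRange D.k).foldl (fun a i => a * D.m (δ i)) (D.m z)) (D.m z)
    rw [hab'] at h2
    have h3 := (D.hW (a * p) b).trans ((D.hW a p).mul (Sat.rfl (u := D.W b)))
    exact (h1.symm.trans h2.symm).trans h3
  · rw [lst_mul, lst_mul]
    simp [lst, x]
  · rw [lst_mul, lst_of, List.mem_append, List.mem_singleton]
    rintro (h | h)
    · exact hx _ (of z) (by rw [lst_of, List.mem_singleton]; exact fun h => hz h.symm) h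
    · exact hz h.symm

/-! ### Idempotent powers -/

theorem om_idem {t : ℕ} {T : Type} [Semigroup T] [Finite T] (hc : Nat.card T ≤ t) (ht : 1 ≤ t)
    (x : T) : pw x (t.factorial - 1) * pw x (t.factorial - 1) = pw x (t.factorial - 1) := by
  obtain ⟨i, j, hij, he⟩ := exists_coll hc (Nat.lt_succ_self t) fun i : Fin (t + 1) => pw x i
  wlog h : i < j generalizing i j
  · exact this j i hij.symm he.symm (lt_of_le_of_ne (not_lt.1 h) hij.symm)
  obtain ⟨p, hp⟩ : ∃ p, (j : ℕ) = i + (p + 1) := ⟨j - i - 1, by
    have : (i : ℕ) < j := h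
    omega⟩
  simp only [hp] at he
  have hj := j.2
  have h1 : ∀ a, pw x (i + a) = pw x (i + a + (p + 1)) := by
    intro a
    rcases Nat.eq_zero_or_pos a with ha | ha
    · subst ha; exact he
    · obtain ⟨b, rfl⟩ : ∃ b, a = b + 1 := ⟨a - 1, by omega⟩
      have e1 := pw_add x i b
      have e2 := pw_add x (i + (p + 1)) b
      rw [← he, e1] at e2
      rw [show (i : ℕ) + (b + 1) = i + b + 1 by ring, e2]
      congr 1; ring
  have h2 : ∀ s a, pw x (i + a) = pw x (i + a + (p + 1) * s) := by
    intro s
    induction s with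
    | zero => intro a; simp
    | succ s ih =>
      intro a
      rw [ih a, add_assoc, h1]
      congr 1; ring
  have hdvd : p + 1 ∣ t.factorial := Nat.dvd_factorial (Nat.succ_pos p) (by omega)
  obtain ⟨s, hs⟩ := hdvd
  have hfac : t ≤ t.factorial := Nat.self_le_factorial t
  obtain ⟨a, ha⟩ : ∃ a, t.factorial - 1 = i + a := ⟨t.factorial - 1 - i, by omega⟩
  rw [pw_add]
  have e : t.factorial - 1 + (t.factorial - 1) + 1 = i + a + (p + 1) * s := by omega
  rw [e, ← h2, ha]

theorem pw_pi {ι : Type} {T : ι → Type} [∀ i, Semigroup (T i)] (p : ∀ i, T i) (c : ℕ) (i : ι) :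
    (pw p c) i = pw (p i) c := by
  induction c with
  | zero => rfl
  | succ c ih => rw [pw_succ, Pi.mul_apply, ih]; rfl

theorem Hyp.idem {t : ℕ} {M : Type} [Semigroup M] [Finite M] [Nonempty M] (ht : 1 ≤ t)
    (h : Hyp t M) (x : M) :
    pw x (t.factorial - 1) * pw x (t.factorial - 1) = pw x (t.factorial - 1) := by
  obtain ⟨k, T, sg, fin, card, f, hf⟩ := h M inferInstance inferInstance inferInstance IdLe.rfl
  obtain ⟨p, rfl⟩ := hf x
  rw [← pw_map, ← map_mul]
  congr 1
  funext i
  rw [Pi.mul_apply, pw_pi]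
  exact om_idem (card i) ht _

/-! ### The minimal ideal -/

/-- Idempotent powers and their factorizations. -/
structure Base (M : Type) [Semigroup M] (c : ℕ) : Prop where
  idem : ∀ x : M, pw x c * pw x c = pw x c
  fac : ∀ z s : M, ∃ a b, pw z c = a * s * b

theorem Hyp.base {t : ℕ} {M : Type} [Semigroup M] [Finite M] [Nonempty M] (ht : 1 ≤ t)
    (h : Hyp t M) : Base M (t.factorial - 1) := by
  refine ⟨h.idem ht, fun z s => ?_⟩
  obtain ⟨D⟩ := h.mix (t + 1) (by omega)
  obtain ⟨u, v, x, huv, hxv, hxu⟩ := step1 D ht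
  set c := t.factorial - 1
  have hid := h.idem ht z
  let θ : Fin (t + 1) → M := fun y => if y = x then s else z
  obtain ⟨j, hj⟩ := lift_const θ z u fun y hy => by
    have : y ≠ x := fun h => hxu (h ▸ hy)
    simp [θ, this]
  obtain ⟨a, b, hab⟩ := lift_factor θ x v hxv (pw z c) (pw z c)
  rw [← huv θ, hj, pw_add, pw_add] at hab
  have hx : θ x = s := by simp [θ]
  rw [hx] at hab
  have hpow : ∀ i, pw (pw z c) i = pw z c := by
    intro i
    induction i with
    | zero => rfl
    | succ i ih => rw [pw_succ, ih]; exact hid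
  obtain ⟨J, hJ⟩ : ∃ J, c + j + 1 + c + 1 = J := ⟨_, rfl⟩
  rw [hJ] at hab
  have h3 := hpow (J + 1)
  rw [pw_pw, show c * (J + 1) + c + (J + 1) = J + (c * (J + 1) + c) + 1 by ring, ← pw_add,
    hab] at h3
  exact ⟨a, b * pw z (c * (J + 1) + c), by rw [← h3]; simp only [mul_assoc]⟩

/-- Membership in the minimal ideal. -/
def InK {M : Type} [Semigroup M] (s : M) : Prop := ∀ z : M, ∃ a b, s = a * z * b

section

variable {M : Type} [Semigroup M] {c : ℕ}

theorem InK.left {s : M} (h : InK s) (a : M) : InK (a * s) := fun z => by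
  obtain ⟨a', b', h'⟩ := h z
  exact ⟨a * a', b', by rw [h']; simp only [mul_assoc]⟩

theorem InK.right {s : M} (h : InK s) (a : M) : InK (s * a) := fun z => by
  obtain ⟨a', b', h'⟩ := h z
  exact ⟨a', b' * a, by rw [h']; simp only [mul_assoc]⟩

theorem Base.om (hB : Base M c) (z : M) : InK (pw z c) := fun s => hB.fac z s

theorem Base.pow_idem {e : M} (he : e * e = e) (j : ℕ) : pw e j = e := by
  induction j with
  | zero => rfl
  | succ j ih => rw [pw_succ, ih, he]

theorem Base.idemK (hB : Base M c) {e : M} (he : e * e = e) : InK e := by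
  have := hB.om e
  rwa [Base.pow_idem he] at this

theorem pw_left (x : M) (c : ℕ) : ∃ y, pw x c * x = x * y ∧ pw x c * x = y * x :=
  ⟨pw x c, by rw [← pw_succ, pw_succ'], rfl⟩

theorem Base.om_mul (hB : Base M c) {s : M} (h : InK s) : pw s c * s = s := by
  obtain ⟨a, b, hab⟩ := h (s * s)
  have h0 : s = a * s * (s * b) := by
    calc s = a * (s * s) * b := hab
      _ = a * s * (s * b) := by simp only [mul_assoc]
  have h1 : ∀ j, s = pw a j * s * pw (s * b) j := by
    intro j
    induction j with
    | zero => exact h0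
    | succ j ih =>
      calc s = pw a j * s * pw (s * b) j := ih
        _ = pw a j * (a * s * (s * b)) * pw (s * b) j := by rw [← h0]
        _ = pw a (j + 1) * s * pw (s * b) (j + 1) := by
          rw [pw_succ, pw_succ']; simp only [mul_assoc]
  have h2 : s * pw (s * b) c = s := by
    calc s * pw (s * b) c = pw a c * s * pw (s * b) c * pw (s * b) c := by rw [← h1 c]
      _ = pw a c * s * pw (s * b) c := by rw [mul_assoc, hB.idem]
      _ = s := (h1 c).symm
  obtain ⟨r, hr⟩ : ∃ r, pw (s * b) c = s * r := by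
    cases c with
    | zero => exact ⟨b, rfl⟩
    | succ c => exact ⟨b * pw (s * b) c, by rw [pw_succ', mul_assoc]⟩
  rw [hr] at h2
  have h3 : ∀ j, s = pw s j * s * pw r j := by
    intro j
    induction j with
    | zero => rw [pw_zero, pw_zero, mul_assoc]; exact h2.symm
    | succ j ih =>
      calc s = pw s j * s * pw r j := ih
        _ = pw s j * (s * (s * r)) * pw r j := by rw [h2]
        _ = pw s (j + 1) * s * pw r (j + 1) := by
          rw [pw_succ, pw_succ']; simp only [mul_assoc]
  calc pw s c * s = pw s c * (pw s c * s * pw r c) := by rw [← h3 c]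
    _ = pw s c * pw s c * s * pw r c := by simp only [mul_assoc]
    _ = pw s c * s * pw r c := by rw [hB.idem]
    _ = s := (h3 c).symm

theorem Base.mul_om (hB : Base M c) {s : M} (h : InK s) : s * pw s c = s := by
  rw [← pw_succ', pw_succ]
  exact hB.om_mul h

/-- Local groups. -/
theorem Base.group (hB : Base M c) {e s : M} (he : e * e = e) (hes : e * s = s)
    (hse : s * e = s) : pw s c = e := by
  obtain ⟨f, hf⟩ : ∃ f, pw s c = f := ⟨_, rfl⟩
  have hff : f * f = f := by rw [← hf]; exact hB.idem s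
  have hef : e * f = f := by
    rw [← hf]
    cases c with
    | zero => exact hes
    | succ c => rw [pw_succ', ← mul_assoc, hes]
  have hfe : f * e = f := by
    rw [← hf]
    cases c with
    | zero => exact hse
    | succ c => rw [pw_succ, mul_assoc, hse]
  obtain ⟨a, b, hab⟩ := hB.idemK he f
  let u := e * a * f
  let v := f * b * e
  have huv : u * v = e := by
    calc e * a * f * (f * b * e) = e * (a * (f * f) * b) * e := by simp only [mul_assoc]
      _ = e * e * e := by rw [hff, ← hab]
      _ = e := by rw [he, he]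
  have hue : u * e = u := by
    calc e * a * f * e = e * a * (f * e) := by simp only [mul_assoc]
      _ = u := by rw [hfe]
  have heu : e * u = u := by
    calc e * (e * a * f) = e * e * a * f := by simp only [mul_assoc]
      _ = u := by rw [he]
  have hev : e * v = v := by
    calc e * (f * b * e) = e * f * b * e := by simp only [mul_assoc]
      _ = v := by rw [hef]
  have h1 : ∀ j, pw u j * pw v j = e := by
    intro j
    induction j with
    | zero => exact huv
    | succ j ih =>
      calc pw u (j + 1) * pw v (j + 1) = pw u j * (u * v) * pw v j := by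
            rw [pw_succ, pw_succ']; simp only [mul_assoc]
        _ = pw u j * (e * pw v j) := by rw [huv, mul_assoc]
        _ = pw u j * pw v j := by
          congr 1
          cases j with
          | zero => exact hev
          | succ j => rw [pw_succ', ← mul_assoc, hev]
        _ = e := ih
  have h2 : pw u c * e = pw u c := by
    cases c with
    | zero => exact hue
    | succ c => rw [pw_succ, mul_assoc, hue]
  have h3 : pw u c = e := by
    calc pw u c = pw u c * e := h2.symm
      _ = pw u c * (pw u c * pw v c) := by rw [h1]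
      _ = pw u c * pw v c := by rw [← mul_assoc, hB.idem]
      _ = e := h1 c
  have h4 : pw u c * f = pw u c := by
    have huf : u * f = u := by
      calc e * a * f * f = e * a * (f * f) := by simp only [mul_assoc]
        _ = u := by rw [hff]
    cases c with
    | zero => exact huf
    | succ c => rw [pw_succ, mul_assoc, huf]
  rw [h3, hef] at h4
  rw [hf, h4]

end

/-! ### The opposite semigroup -/

section

open MulOpposite

variable {M : Type} [Semigroup M] {c : ℕ}

theorem pw_op (x : M) (c : ℕ) : pw (op x) c = op (pw x c) := by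
  induction c with
  | zero => rfl
  | succ c ih => rw [pw_succ, ih, ← op_mul, ← pw_succ']

theorem Base.op (hB : Base M c) : Base Mᵐᵒᵖ c := by
  refine ⟨fun x => ?_, fun z s => ?_⟩
  · obtain ⟨x, rfl⟩ := op_surjective x
    rw [pw_op, ← op_mul, hB.idem]
  · obtain ⟨z, rfl⟩ := op_surjective z
    obtain ⟨s, rfl⟩ := op_surjective s
    obtain ⟨a, b, hab⟩ := hB.fac z s
    refine ⟨MulOpposite.op b, MulOpposite.op a, ?_⟩
    rw [pw_op, hab, ← op_mul, ← op_mul, mul_assoc]

theorem InK.op {s : M} (h : InK s) : InK (MulOpposite.op s) := by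
  intro z
  obtain ⟨z, rfl⟩ := op_surjective z
  obtain ⟨a, b, hab⟩ := h z
  refine ⟨MulOpposite.op b, MulOpposite.op a, ?_⟩
  rw [hab, ← op_mul, ← op_mul, mul_assoc]

/-- Reversal of words. -/
def rev {N : ℕ} (w : Wd N) : Wd N :=
  unop (lift (fun x => MulOpposite.op (of x : Wd N)) w)

theorem rev_mul {N : ℕ} (u v : Wd N) : rev (u * v) = rev v * rev u := by
  simp [rev]

theorem rev_of {N : ℕ} (x : Fin N) : rev (of x : Wd N) = of x := rfl

theorem lift_rev {N : ℕ} (θ : Fin N → Mᵐᵒᵖ) (w : Wd N) :
    lift θ w = MulOpposite.op (lift (fun x => unop (θ x)) (rev w)) := by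
  induction w using FreeSemigroup.recOnMul with
  | ih1 x => rw [rev_of, lift_of, lift_of]; rfl
  | ih2 x w h1 h2 => rw [map_mul, h2, rev_mul, map_mul, h1, op_mul]

theorem rev_rev {N : ℕ} (w : Wd N) : rev (rev w) = w := by
  induction w using FreeSemigroup.recOnMul with
  | ih1 x => rfl
  | ih2 x w h1 h2 => rw [rev_mul, rev_mul, h1, h2]

theorem sat_op {N : ℕ} {u v : Wd N} : Sat Mᵐᵒᵖ u v ↔ Sat M (rev u) (rev v) := by
  constructor
  · intro h θ
    have := h fun x => MulOpposite.op (θ x)
    rw [lift_rev, lift_rev] at this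
    exact op_injective this
  · intro h θ
    rw [lift_rev, lift_rev, h]

/-- Mixing data of the opposite semigroup. -/
def MixData.op {t N : ℕ} (D : MixData t M N) : MixData t Mᵐᵒᵖ N where
  k := D.k
  T := fun i => (D.T i)ᵐᵒᵖ
  sg := fun i => inferInstance
  fin := fun i => Finite.of_equiv _ (opEquiv (α := D.T i))
  card := fun i => by rw [Nat.card_congr (opEquiv (α := D.T i)).symm]; exact D.card i
  W := fun p => rev (D.W fun i => unop (p i))
  hW := fun p q => by
    rw [sat_op, rev_mul, rev_rev, rev_rev, rev_rev]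
    exact D.hW _ _
  m := fun x i => MulOpposite.op (D.m x i)
  hm := fun x => by
    rw [sat_op, rev_rev, rev_of]
    exact D.hm x

end

end Pool.Agent.Lib.MP_88bd66_lc
end
end

section

section

/-!
Products of three elements lie in the minimal ideal.
-/

set_option autoImplicit false

namespace Pool.Agent.Lib.MP_88bd66_lc

open FreeSemigroup

theorem exists_letter {N : ℕ} (l : List (Fin N)) (h : l.length < N) : ∃ x, x ∉ l := by
  by_contra hcon
  push Not at hcon
  have h1 : (Finset.univ : Finset (Fin N)) ⊆ l.toFinset := fun x _ => List.mem_toFinset.2 (hcon x)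
  have h2 := Finset.card_le_card h1
  have h3 := l.toFinset_card_le
  rw [Finset.card_univ, Fintype.card_fin] at h2
  omega

section

variable {M : Type} [Semigroup M] {c N : ℕ}

theorem lift_inK (θ : Fin N → M) (x : Fin N) (w : Wd N) (hx : x ∈ lst w) (h : InK (θ x)) :
    InK (lift θ w) := by
  induction w using FreeSemigroup.recOnMul with
  | ih1 y =>
    rw [lst_of, List.mem_singleton] at hx
    rw [lift_of, ← hx]; exact h
  | ih2 y w _ ih =>
    rw [lst_mul, lst_of, List.mem_append, List.mem_singleton] at hx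
    rw [map_mul, lift_of]
    rcases hx with hx | hx
    · rw [← hx]; exact h.right _
    · exact (ih hx).left _

theorem inK_of_descent [Finite M] (hB : Base M c) (I : M → Prop)
    (hI : ∀ s, I s → ∃ s' u, I s' ∧ s = s' * u) (s : M) (hs : I s) : InK s := by
  have hI' : ∀ s : {s // I s}, ∃ s' : {s // I s}, ∃ u, s.1 = s'.1 * u := by
    rintro ⟨s, hs⟩
    obtain ⟨s', u, h1, h2⟩ := hI s hs
    exact ⟨⟨s', h1⟩, u, h2⟩
  choose f hf using hI'
  let sq : ℕ → {s // I s} := fun k => f^[k] ⟨s, hs⟩
  have hsq : ∀ i, ∃ u, (sq i).1 = (sq (i + 1)).1 * u := fun i => by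
    have : sq (i + 1) = f (sq i) := Function.iterate_succ_apply' f i _
    rw [this]
    exact hf _
  have hsq' : ∀ d i, ∃ u, (sq i).1 = (sq (i + (d + 1))).1 * u := by
    intro d
    induction d with
    | zero => intro i; exact hsq i
    | succ d ih =>
      intro i
      obtain ⟨u, hu⟩ := hsq i
      obtain ⟨v, hv⟩ := ih (i + 1)
      refine ⟨v * u, ?_⟩
      have e : i + (d + 1 + 1) = i + 1 + (d + 1) := by ring
      rw [e, hu, hv, mul_assoc]
  obtain ⟨i, j, hij, he⟩ := Finite.exists_ne_map_eq_of_infinite sq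
  wlog h : i < j generalizing i j
  · exact this j i hij.symm he.symm (lt_of_le_of_ne (not_lt.1 h) hij.symm)
  obtain ⟨d, rfl⟩ : ∃ d, j = i + (d + 1) := ⟨j - i - 1, by omega⟩
  obtain ⟨u, hu⟩ := hsq' d i
  rw [← he] at hu
  have hk : ∀ j, (sq i).1 = (sq i).1 * pw u j := by
    intro j
    induction j with
    | zero => exact hu
    | succ j ih =>
      conv_lhs => rw [hu]
      conv_lhs => rw [ih]
      rw [pw_succ, mul_assoc]
  have hi : InK (sq i).1 := by
    rw [hk c]
    exact (hB.om u).left _
  rcases Nat.eq_zero_or_pos i with h0 | h0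
  · subst h0; exact hi
  · obtain ⟨d', rfl⟩ : ∃ d', i = d' + 1 := ⟨i - 1, by omega⟩
    obtain ⟨v, hv⟩ := hsq' d' 0
    rw [zero_add] at hv
    have : (sq 0).1 = s := rfl
    rw [← this, hv]
    exact hi.right _

theorem perm3 [Finite M] (hB : Base M c) (hn : ¬ ∀ a b d : M, InK (a * b * d)) {x y z : Fin N}
    (hxy : x ≠ y) (hyz : y ≠ z) (hxz : x ≠ z) (w : Wd N)
    (h : Sat M w (of x * of y * of z)) : (lst w).Perm [x, y, z] := by
  by_contra hp
  apply hn
  have hval : ∀ θ : Fin N → M, lift θ w = θ x * θ y * θ z := by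
    intro θ
    rw [h θ, map_mul, map_mul, lift_of, lift_of, lift_of]
  by_cases h1 : ∃ s ∈ lst w, s ≠ x ∧ s ≠ y ∧ s ≠ z
  · obtain ⟨s, hs, hsx, hsy, hsz⟩ := h1
    intro a b d
    let θ : Fin N → M := fun l => if l = x then a else if l = y then b else if l = z then d
      else pw a c
    have e1 : θ x = a := by simp [θ]
    have e2 : θ y = b := by simp [θ, hxy.symm]
    have e3 : θ z = d := by simp [θ, hxz.symm, hyz.symm]
    have e4 : θ s = pw a c := by simp [θ, hsx, hsy, hsz]
    rw [← e1, ← e2, ← e3, ← hval]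
    exact lift_inK θ s w hs (by rw [e4]; exact hB.om a)
  have h1' : ∀ s ∈ lst w, s = x ∨ s = y ∨ s = z := by
    intro s hs
    by_contra hcon
    push Not at hcon
    exact h1 ⟨s, hs, hcon⟩
  by_cases hx : x ∈ lst w
  swap
  · intro a b d
    let θ : Fin N → M := fun l => if l = x then a else if l = y then b else d
    let θ' : Fin N → M := fun l => if l = x then pw a c else if l = y then b else d
    have e1 : θ x = a := by simp [θ]
    have e2 : θ y = b := by simp [θ, hxy.symm]
    have e3 : θ z = d := by simp [θ, hxz.symm, hyz.symm]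
    have e4 : θ' x = pw a c := by simp [θ']
    have e5 := hval θ'
    rw [← e1, ← e2, ← e3, ← hval, lift_congr θ θ' w, e5, e4]
    · exact ((hB.om a).right _).right _
    · intro l hl
      have : l ≠ x := fun h => hx (h ▸ hl)
      simp [θ, θ', this]
  by_cases hy : y ∈ lst w
  swap
  · intro a b d
    let θ : Fin N → M := fun l => if l = x then a else if l = y then b else d
    let θ' : Fin N → M := fun l => if l = x then a else if l = y then pw b c else d
    have e1 : θ x = a := by simp [θ]
    have e2 : θ y = b := by simp [θ, hxy.symm]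
    have e3 : θ z = d := by simp [θ, hxz.symm, hyz.symm]
    have e4 : θ' y = pw b c := by simp [θ', hxy.symm]
    have e5 := hval θ'
    rw [← e1, ← e2, ← e3, ← hval, lift_congr θ θ' w, e5, e4]
    · exact ((hB.om b).left _).right _
    · intro l hl
      have : l ≠ y := fun h => hy (h ▸ hl)
      simp [θ, θ', this]
  by_cases hz : z ∈ lst w
  swap
  · intro a b d
    let θ : Fin N → M := fun l => if l = x then a else if l = y then b else d
    let θ' : Fin N → M := fun l => if l = x then a else if l = y then b else pw d c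
    have e1 : θ x = a := by simp [θ]
    have e2 : θ y = b := by simp [θ, hxy.symm]
    have e3 : θ z = d := by simp [θ, hxz.symm, hyz.symm]
    have e4 : θ' z = pw d c := by simp [θ', hxz.symm, hyz.symm]
    have e5 := hval θ'
    rw [← e1, ← e2, ← e3, ← hval, lift_congr θ θ' w, e5, e4]
    · exact (hB.om d).left _
    · intro l hl
      have : l ≠ z := fun h => hz (h ▸ hl)
      have := h1' l hl
      rcases this with h | h | h
      · simp [θ, θ', h]
      · simp [θ, θ', h]
      · exact absurd h ‹l ≠ z›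
  have hlen : 4 ≤ (lst w).length := by
    by_contra hlen
    apply hp
    have hnd : [x, y, z].Nodup := by simp [hxy, hyz, hxz]
    have hsub : [x, y, z] ⊆ lst w := by
      intro s hs
      simp only [List.mem_cons, List.not_mem_nil, or_false] at hs
      rcases hs with h | h | h <;> rw [h] <;> assumption
    exact ((List.subperm_of_subset hnd hsub).perm_of_length_le (by simp; omega)).symm
  have hI : ∀ s : M, (∃ a b d, s = a * b * d) → ∃ s' u, (∃ a b d, s' = a * b * d) ∧ s = s' * u := by
    rintro s ⟨a, b, d, rfl⟩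
    let θ : Fin N → M := fun l => if l = x then a else if l = y then b else d
    have e1 : θ x = a := by simp [θ]
    have e2 : θ y = b := by simp [θ, hxy.symm]
    have e3 : θ z = d := by simp [θ, hxz.symm, hyz.symm]
    have e := hval θ
    rw [e1, e2, e3] at e
    rw [← e]
    obtain ⟨x0, tl⟩ := w
    rcases tl with _ | ⟨x1, _ | ⟨x2, _ | ⟨x3, tl⟩⟩⟩
    · simp [lst] at hlen
    · simp [lst] at hlen
    · simp [lst] at hlen
    · refine ⟨θ x0 * θ x1 * θ x2, lift θ ⟨x3, tl⟩, ⟨_, _, _, rfl⟩, ?_⟩
      have : (⟨x0, x1 :: x2 :: x3 :: tl⟩ : Wd N) = of x0 * of x1 * of x2 * ⟨x3, tl⟩ := rfl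
      rw [this, map_mul, map_mul, map_mul, lift_of, lift_of, lift_of]
  intro a b d
  exact inK_of_descent hB _ hI _ ⟨a, b, d, rfl⟩

theorem perm2 [Finite M] (hB : Base M c) (hn : ¬ ∀ a b d : M, InK (a * b * d)) (hN : 5 ≤ N)
    {x z : Fin N} (hxz : x ≠ z) (w : Wd N)
    (h : Sat M w (of x * of z)) : (lst w).Perm [x, z] := by
  obtain ⟨y, hy⟩ := exists_letter [x, z] (by simp; omega)
  simp only [List.mem_cons, List.not_mem_nil, or_false, not_or] at hy
  have := perm3 hB hn hxz (Ne.symm hy.2) (Ne.symm hy.1) (w * of y) (h.mul Sat.rfl)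
  rw [lst_mul, lst_of] at this
  exact (List.perm_append_right_iff [y]).1 this

theorem perm1 [Finite M] (hB : Base M c) (hn : ¬ ∀ a b d : M, InK (a * b * d)) (hN : 5 ≤ N)
    {x : Fin N} (w : Wd N) (h : Sat M w (of x)) : w = of x := by
  obtain ⟨y, hy⟩ := exists_letter [x] (by simp; omega)
  simp only [List.mem_cons, List.not_mem_nil, or_false] at hy
  have := perm2 hB hn hN (Ne.symm hy) (w * of y) (h.mul Sat.rfl)
  rw [lst_mul, lst_of] at this
  have h2 : (lst w).Perm [x] := (List.perm_append_right_iff [y]).1 this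
  exact lst_inj (List.perm_singleton.1 h2)

end

theorem step2 {t c : ℕ} {M : Type} [Semigroup M] [Finite M] (hB : Base M c)
    (D : MixData t M (t + 5)) (a b d : M) : InK (a * b * d) := by
  by_contra hcon
  have hn : ¬ ∀ a b d : M, InK (a * b * d) := fun h => hcon (h a b d)
  clear hcon a b d
  have hN : 5 ≤ t + 5 := by omega
  let m := D.m
  let L : (∀ i, D.T i) → List (Fin (t + 5)) := fun p => lst (D.W p)
  have hL0 : ∀ p, L p ≠ [] := fun p => lst_ne_nil _
  -- products equal to a product of three letters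
  have hS : ∀ {x y z : Fin (t + 5)}, x ≠ y → y ≠ z → x ≠ z → ∀ p q, p * q = m x * m y * m z →
      (L p ++ L q).Perm [x, y, z] := by
    intro x y z hxy hyz hxz p q hpq
    have h1 : Sat M (D.W p * D.W q) (of x * of y * of z) := by
      refine (D.hW p q).symm.trans ?_
      rw [hpq]
      exact (D.hW _ _).trans (((D.hW _ _).trans ((D.hm x).mul (D.hm y))).mul (D.hm z))
    exact perm3 hB hn hxy hyz hxz _ h1
  let α : Finset (Fin D.k) → Fin (t + 5) → Fin (t + 5) → List (Fin (t + 5)) :=
    fun A x y => L (mix A (m x) (m x * m y))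
  let β : Finset (Fin D.k) → Fin (t + 5) → Fin (t + 5) → List (Fin (t + 5)) :=
    fun A y z => L (mix A (m y * m z) (m z))
  have hαβ : ∀ A {x y z : Fin (t + 5)}, x ≠ y → y ≠ z → x ≠ z →
      (α A x y ++ β A y z).Perm [x, y, z] := by
    intro A x y z hxy hyz hxz
    refine hS hxy hyz hxz _ _ ?_
    rw [mix_mul, mul_assoc, mix_self]
  have hxα : ∀ A {x y : Fin (t + 5)}, x ≠ y → x ∈ α A x y := by
    intro A x y hxy
    obtain ⟨z, hz⟩ := exists_letter [x, y] (by simp)
    simp only [List.mem_cons, List.not_mem_nil, or_false, not_or] at hz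
    obtain ⟨x', hx'⟩ := exists_letter [x, y, z] (by simp)
    simp only [List.mem_cons, List.not_mem_nil, or_false, not_or] at hx'
    have h1 := hαβ A hxy (Ne.symm hz.2) (Ne.symm hz.1)
    have h2 := hαβ A hx'.2.1 (Ne.symm hz.2) hx'.2.2
    have h3 : x ∈ α A x y ++ β A y z := h1.mem_iff.2 (by simp)
    rcases List.mem_append.1 h3 with h | h
    · exact h
    · have h4 : x ∈ [x', y, z] := h2.mem_iff.1 (List.mem_append_right _ h)
      simp only [List.mem_cons, List.not_mem_nil, or_false] at h4
      rcases h4 with h4 | h4 | h4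
      · exact absurd h4.symm hx'.1
      · exact absurd h4 hxy
      · exact absurd h4.symm hz.1
  have hzβ : ∀ A {y z : Fin (t + 5)}, y ≠ z → z ∈ β A y z := by
    intro A y z hyz
    obtain ⟨x, hx⟩ := exists_letter [y, z] (by simp)
    simp only [List.mem_cons, List.not_mem_nil, or_false, not_or] at hx
    obtain ⟨z', hz'⟩ := exists_letter [x, y, z] (by simp)
    simp only [List.mem_cons, List.not_mem_nil, or_false, not_or] at hz'
    have h1 := hαβ A hx.1 hyz hx.2
    have h2 := hαβ A hx.1 (Ne.symm hz'.2.1) (Ne.symm hz'.1)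
    have h3 : z ∈ α A x y ++ β A y z := h1.mem_iff.2 (by simp)
    rcases List.mem_append.1 h3 with h | h
    · have h4 : z ∈ [x, y, z'] := h2.mem_iff.1 (List.mem_append_left _ h)
      simp only [List.mem_cons, List.not_mem_nil, or_false] at h4
      rcases h4 with h4 | h4 | h4
      · exact absurd h4.symm hx.2
      · exact absurd h4.symm hyz
      · exact absurd h4.symm hz'.2.2
    · exact h
  -- the two types
  have hI : ∀ A {x y z : Fin (t + 5)}, x ≠ y → y ≠ z → x ≠ z →
      (α A x y = [x] ∧ (β A y z).Perm [y, z]) ∨ ((α A x y).Perm [x, y] ∧ β A y z = [z]) := by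
    intro A x y z hxy hyz hxz
    have h1 := hαβ A hxy hyz hxz
    have h2 := hxα A hxy
    have h3 := hzβ A hyz
    have hnd : (α A x y ++ β A y z).Nodup := h1.symm.nodup (by simp [hxy, hyz, hxz])
    have hy : y ∈ α A x y ++ β A y z := h1.mem_iff.2 (by simp)
    have hlen := h1.length_eq
    rw [List.length_append] at hlen
    simp only [List.length_cons, List.length_nil] at hlen
    have hndα := (List.nodup_append.1 hnd).1
    have hndβ := (List.nodup_append.1 hnd).2.1
    have hl1 : 1 ≤ (α A x y).length := List.length_pos_of_mem h2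
    have hl2 : 1 ≤ (β A y z).length := List.length_pos_of_mem h3
    rcases List.mem_append.1 hy with h | h
    · right
      have hsub : [x, y] ⊆ α A x y := by
        intro s hs
        simp only [List.mem_cons, List.not_mem_nil, or_false] at hs
        rcases hs with h' | h' <;> rw [h'] <;> assumption
      have hsp := List.subperm_of_subset (by simp [hxy]) hsub
      have hle := hsp.length_le
      simp only [List.length_cons, List.length_nil] at hle
      refine ⟨(hsp.perm_of_length_le (by simp; omega)).symm, ?_⟩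
      obtain ⟨s, hs⟩ := List.length_eq_one_iff.1 (show (β A y z).length = 1 by omega)
      rw [hs] at h3 ⊢
      rw [List.mem_singleton.1 h3]
    · left
      have hsub : [y, z] ⊆ β A y z := by
        intro s hs
        simp only [List.mem_cons, List.not_mem_nil, or_false] at hs
        rcases hs with h' | h' <;> rw [h'] <;> assumption
      have hsp := List.subperm_of_subset (by simp [hyz]) hsub
      have hle := hsp.length_le
      simp only [List.length_cons, List.length_nil] at hle
      refine ⟨?_, (hsp.perm_of_length_le (by simp; omega)).symm⟩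
      obtain ⟨s, hs⟩ := List.length_eq_one_iff.1 (show (α A x y).length = 1 by omega)
      rw [hs] at h2 ⊢
      rw [List.mem_singleton.1 h2]
  -- consequences of the types
  have hc1 : ∀ A {x y : Fin (t + 5)}, x ≠ y → α A x y = [x] →
      ∀ z, y ≠ z → x ≠ z → (β A y z).Perm [y, z] := by
    intro A x y hxy h z hyz hxz
    rcases hI A hxy hyz hxz with h' | h'
    · exact h'.2
    · have := h'.1.length_eq
      rw [h] at this
      simp at this
  have hc2 : ∀ A {y z : Fin (t + 5)}, y ≠ z → (β A y z).Perm [y, z] →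
      ∀ x, x ≠ y → x ≠ z → α A x y = [x] := by
    intro A y z hyz h x hxy hxz
    rcases hI A hxy hyz hxz with h' | h'
    · exact h'.1
    · have := h.length_eq
      rw [h'.2] at this
      simp at this
  have hc1' : ∀ A {x y : Fin (t + 5)}, x ≠ y → (α A x y).Perm [x, y] →
      ∀ z, y ≠ z → x ≠ z → β A y z = [z] := by
    intro A x y hxy h z hyz hxz
    rcases hI A hxy hyz hxz with h' | h'
    · have := h.length_eq
      rw [h'.1] at this
      simp at this
    · exact h'.2
  have hc2' : ∀ A {y z : Fin (t + 5)}, y ≠ z → β A y z = [z] →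
      ∀ x, x ≠ y → x ≠ z → (α A x y).Perm [x, y] := by
    intro A y z hyz h x hxy hxz
    rcases hI A hxy hyz hxz with h' | h'
    · have := h'.2.length_eq
      rw [h] at this
      simp at this
    · exact h'.1
  let QI : Finset (Fin D.k) → Fin (t + 5) → Prop := fun A y =>
    (∀ x, x ≠ y → α A x y = [x]) ∧ ∀ z, y ≠ z → (β A y z).Perm [y, z]
  let QII : Finset (Fin D.k) → Fin (t + 5) → Prop := fun A y =>
    (∀ x, x ≠ y → (α A x y).Perm [x, y]) ∧ ∀ z, y ≠ z → β A y z = [z]
  have hQ : ∀ A y, QI A y ∨ QII A y := by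
    intro A y
    obtain ⟨x₀, hx₀⟩ := exists_letter [y] (by simp)
    simp only [List.mem_cons, List.not_mem_nil, or_false] at hx₀
    obtain ⟨z₀, hz₀⟩ := exists_letter [y, x₀] (by simp)
    simp only [List.mem_cons, List.not_mem_nil, or_false, not_or] at hz₀
    rcases hI A hx₀ (Ne.symm hz₀.1) (Ne.symm hz₀.2) with h | h
    · left
      have h3 : ∀ x, x ≠ y → α A x y = [x] := by
        intro x hx
        obtain ⟨z, hz⟩ := exists_letter [y, x₀, x] (by simp)
        simp only [List.mem_cons, List.not_mem_nil, or_false, not_or] at hz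
        exact hc2 A (Ne.symm hz.1) (hc1 A hx₀ h.1 z (Ne.symm hz.1) (Ne.symm hz.2.1)) x hx
          (Ne.symm hz.2.2)
      refine ⟨h3, fun z hz => ?_⟩
      obtain ⟨x, hx⟩ := exists_letter [y, z] (by simp)
      simp only [List.mem_cons, List.not_mem_nil, or_false, not_or] at hx
      exact hc1 A hx.1 (h3 x hx.1) z hz hx.2
    · right
      have h3 : ∀ x, x ≠ y → (α A x y).Perm [x, y] := by
        intro x hx
        obtain ⟨z, hz⟩ := exists_letter [y, x₀, x] (by simp)
        simp only [List.mem_cons, List.not_mem_nil, or_false, not_or] at hz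
        exact hc2' A (Ne.symm hz.1) (hc1' A hx₀ h.1 z (Ne.symm hz.1) (Ne.symm hz.2.1)) x hx
          (Ne.symm hz.2.2)
      refine ⟨h3, fun z hz => ?_⟩
      obtain ⟨x, hx⟩ := exists_letter [y, z] (by simp)
      simp only [List.mem_cons, List.not_mem_nil, or_false, not_or] at hx
      exact hc1' A hx.1 (h3 x hx.1) z hz hx.2
  have hwd : ∀ p x, L p = [x] → D.W p = of x := fun p x h => lst_inj (by rw [lst_of]; exact h)
  have hmid : ∀ A {x y y' z : Fin (t + 5)},
      mix A (m x) (m x * m y) * mix A (m y' * m z) (m z) =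
        m x * mix A (m y') (m y) * m z := by
    intro A x y y' z
    rw [mix_mul]
    have e : m x * mix A (m y') (m y) * m z =
        mix A (m x) (m x) * mix A (m y') (m y) * mix A (m z) (m z) := by
      rw [mix_self, mix_self]
    rw [e, mix_mul, mix_mul]
    simp only [mul_assoc]
  have hmid' : ∀ A {x y y' z : Fin (t + 5)},
      Sat M (of x * D.W (mix A (m y') (m y)) * of z)
        (D.W (mix A (m x) (m x * m y)) * D.W (mix A (m y' * m z) (m z))) := by
    intro A x y y' z
    refine Sat.trans ?_ (D.hW _ _)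
    rw [hmid]
    exact ((((D.hW _ _).trans ((D.hW _ _).mul Sat.rfl))).trans
      (((D.hm x).mul Sat.rfl).mul (D.hm z))).symm
  have hU : ∀ A {y y' : Fin (t + 5)}, y ≠ y' → QI A y → QII A y' → False := by
    intro A y y' hyy' h1 h2
    obtain ⟨x, hx⟩ := exists_letter [y, y'] (by simp)
    simp only [List.mem_cons, List.not_mem_nil, or_false, not_or] at hx
    obtain ⟨z, hz⟩ := exists_letter [y, y', x] (by simp)
    simp only [List.mem_cons, List.not_mem_nil, or_false, not_or] at hz
    have h3 := hmid' A (x := x) (y := y) (y' := y') (z := z)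
    rw [hwd _ _ (h1.1 x hx.1), hwd _ _ (h2.2 z (Ne.symm hz.2.1))] at h3
    have h4 := (perm2 hB hn hN (Ne.symm hz.2.2) _ h3).length_eq
    rw [lst_mul, lst_mul, lst_of, lst_of] at h4
    simp only [List.length_append, List.length_cons, List.length_nil] at h4
    have h5 : 0 < (lst (D.W (mix A (m y') (m y)))).length :=
      List.length_pos_of_ne_nil (lst_ne_nil _)
    omega
  have hall : ∀ A, ¬ (∀ y, QI A y) → ∀ y, QII A y := by
    intro A h
    push Not at h
    obtain ⟨y, hy⟩ := h
    have hy2 : QII A y := (hQ A y).resolve_left hy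
    intro y'
    by_cases he : y' = y
    · rw [he]; exact hy2
    · rcases hQ A y' with h' | h'
      · exact (hU A he h' hy2).elim
      · exact h'
  have h0 : ¬ ∀ y, QI ∅ y := by
    intro h
    obtain ⟨y, _⟩ := exists_letter ([] : List (Fin (t + 5))) (by simp)
    obtain ⟨x, hx⟩ := exists_letter [y] (by simp)
    simp only [List.mem_cons, List.not_mem_nil, or_false] at hx
    have h1 := (h y).1 x hx
    have h2 : (L (m x * m y)).Perm [x, y] :=
      perm2 hB hn hN hx _ ((D.hW _ _).trans ((D.hm x).mul (D.hm y)))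
    have h3 := h2.length_eq
    have h4 : α ∅ x y = L (m x * m y) := by
      simp only [α]
      rw [mix_empty]
    rw [← h4, h1] at h3
    simp at h3
  have h1 : ∀ y, QI Finset.univ y := by
    intro y
    rcases hQ Finset.univ y with h | h
    · exact h
    · exfalso
      obtain ⟨x, hx⟩ := exists_letter [y] (by simp)
      simp only [List.mem_cons, List.not_mem_nil, or_false] at hx
      have h2 := (h.1 x hx).length_eq
      have h3 : α Finset.univ x y = L (m x) := by
        simp only [α]
        rw [mix_univ]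
      have h4 : D.W (m x) = of x := perm1 hB hn hN _ (D.hm x)
      rw [h3] at h2
      simp only [L] at h2
      rw [h4] at h2
      simp [lst] at h2
  obtain ⟨A, l, hl, hA, hA'⟩ := exists_switch (fun A => ∀ y, QI A y) h0 h1
  have hA2 := hall A hA
  obtain ⟨y, y', hyy', hcol⟩ := exists_coll (D.card l) (show t < t + 5 by omega)
    fun y => m y l
  obtain ⟨x, hx⟩ := exists_letter [y, y'] (by simp)
  simp only [List.mem_cons, List.not_mem_nil, or_false, not_or] at hx
  obtain ⟨z, hz⟩ := exists_letter [y, y', x] (by simp)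
  simp only [List.mem_cons, List.not_mem_nil, or_false, not_or] at hz
  have hcancel : ∀ (s : ∀ i, D.T i) (u v w : Fin (t + 5)),
      (lst (of u * D.W s * of w)).Perm [u, v, w] → L s = [v] := by
    intro s u v w h
    rw [lst_mul, lst_mul, lst_of, lst_of] at h
    have h2 : ([u] ++ L s ++ [w]).Perm ([u] ++ [v] ++ [w]) := h
    have h3 := (List.perm_append_right_iff [w]).1 h2
    have h4 := (List.perm_append_left_iff [u]).1 h3
    exact List.perm_singleton.1 h4
  have hsplit : ∀ (p : ∀ i, D.T i) (u v : Fin (t + 5)), (L p).Perm [u, v] →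
      D.W p = of u * of v ∨ D.W p = of v * of u := by
    intro p u v h
    rcases List.perm_pair.1 h with h | h
    · left; exact lst_inj h
    · right; exact lst_inj h
  have hxy : x ≠ y := hx.1
  have hxy' : x ≠ y' := hx.2
  have hzy : z ≠ y := hz.1
  have hzy' : z ≠ y' := hz.2.1
  have hzx : z ≠ x := hz.2.2
  have r1 : L (mix A (m y') (m y)) = [y] := by
    have h3 := hmid' A (x := x) (y := y) (y' := y') (z := z)
    rw [hwd _ _ ((hA2 y').2 z hzy'.symm)] at h3
    rcases hsplit _ _ _ ((hA2 y).1 x hxy) with h5 | h5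
    · rw [h5] at h3
      exact hcancel _ x y z (perm3 hB hn hxy hzy.symm hzx.symm _ h3)
    · rw [h5] at h3
      exact hcancel _ x y z ((perm3 hB hn hxy.symm hzx.symm hzy.symm _ h3).trans
        (List.Perm.swap _ _ _))
  have r2 : L (mix (insert l A) (m y') (m y)) = [y'] := by
    have h3 := hmid' (insert l A) (x := x) (y := y) (y' := y') (z := z)
    rw [hwd _ _ ((hA' y).1 x hxy)] at h3
    rcases hsplit _ _ _ ((hA' y').2 z hzy'.symm) with h5 | h5
    · rw [h5, ← mul_assoc] at h3
      exact hcancel _ x y' z (perm3 hB hn hxy' hzy'.symm hzx.symm _ h3)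
    · rw [h5, ← mul_assoc] at h3
      refine hcancel _ x y' z ((perm3 hB hn hzx.symm hzy' hxy' _ h3).trans ?_)
      exact List.Perm.cons _ (List.Perm.swap _ _ _)
  have r3 : mix (insert l A) (m y') (m y) = mix A (m y') (m y) := by
    funext i
    simp only [mix, Finset.mem_insert]
    by_cases hi : i = l
    · subst hi
      simp [hl, hcol]
    · simp [hi]
  rw [r3, r1] at r2
  exact hyy' (List.cons.inj r2).1

end Pool.Agent.Lib.MP_88bd66_lc
end

section

/-!
Left translations of the minimal ideal.
-/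

set_option autoImplicit false

namespace Pool.Agent.Lib.MP_88bd66_lc

open FreeSemigroup

/-- `s` is a right multiple of `s'`. -/
def RR {M : Type} [Semigroup M] (s s' : M) : Prop := ∃ u, s = s' * u

section

variable {M : Type} [Semigroup M] {c N : ℕ}

theorem RR.trans {s s' s'' : M} (h : RR s s') (h' : RR s' s'') : RR s s'' := by
  obtain ⟨u, rfl⟩ := h
  obtain ⟨v, rfl⟩ := h'
  exact ⟨v * u, by rw [mul_assoc]⟩

theorem RR.rfl (hB : Base M c) {s : M} (h : InK s) : RR s s := ⟨pw s c, (hB.mul_om h).symm⟩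

theorem RR.symm (hB : Base M c) {s s' : M} (hs : InK s) (hs' : InK s') (h : RR s s') :
    RR s' s := by
  obtain ⟨u, hu⟩ := h
  obtain ⟨e, he⟩ : ∃ e, pw s c = e := ⟨_, Eq.refl _⟩
  obtain ⟨f, hf⟩ : ∃ f, pw s' c = f := ⟨_, Eq.refl _⟩
  have hff : f * f = f := by rw [← hf]; exact hB.idem s'
  have hfs' : f * s' = s' := by rw [← hf]; exact hB.om_mul hs'
  have hfs : f * s = s := by rw [hu, ← mul_assoc, hfs']
  have hfe : f * e = e := by
    rw [← he]
    cases c with
    | zero => exact hfs
    | succ c => rw [pw_succ', ← mul_assoc, hfs]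
  have h1 : pw (e * f) c = f := hB.group hff (by rw [← mul_assoc, hfe]) (by rw [mul_assoc, hff])
  obtain ⟨w, hw⟩ : ∃ w, f = e * w := by
    cases c with
    | zero => exact ⟨f, h1.symm⟩
    | succ c =>
      refine ⟨f * pw (e * f) c, ?_⟩
      rw [pw_succ', mul_assoc] at h1
      exact h1.symm
  obtain ⟨v, hv⟩ : ∃ v, e = s * v := by
    rw [← he]
    cases c with
    | zero => exact ⟨pw s 0, (hB.mul_om hs).symm⟩
    | succ c => exact ⟨pw s c, pw_succ' _ _⟩
  refine ⟨v * w * s', ?_⟩
  calc s' = f * s' := hfs'.symm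
    _ = s * (v * w * s') := by rw [hw, hv]; simp only [mul_assoc]

theorem RR.lift (hB : Base M c) (θ : Fin N → M) (w : Wd N) (h : InK (θ w.head)) :
    RR (lift θ w) (θ w.head) ∧ InK (lift θ w) := by
  refine ⟨?_, lift_inK θ w.head w (List.mem_cons_self) h⟩
  obtain ⟨x, l⟩ := w
  rcases l with _ | ⟨y, l⟩
  · exact RR.rfl hB h
  · exact ⟨FreeSemigroup.lift θ ⟨y, l⟩, by
      have : (⟨x, y :: l⟩ : Wd N) = of x * ⟨y, l⟩ := Eq.refl _
      rw [this, map_mul, lift_of]
      rfl⟩

end

theorem step3 {t c : ℕ} {M : Type} [Semigroup M] (hB : Base M c)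
    (h3 : ∀ a b d : M, InK (a * b * d)) (D : MixData t M (t + 3)) (x k k' : M) (hk : InK k)
    (hk' : InK k') : RR (x * k) (x * k') := by
  by_contra hcon
  -- a translation which is constant when squared
  obtain ⟨x, k₁, hk₁, hxx, hne⟩ : ∃ x k₁ : M, InK k₁ ∧
      (∀ k k', InK k → InK k' → RR (x * x * k) (x * x * k')) ∧ ¬ RR (x * k₁) (x * x * k₁) := by
    have key : ∀ x : M, (∀ k k', InK k → InK k' → RR (x * x * k) (x * x * k')) →
        (∃ k k', InK k ∧ InK k' ∧ ¬ RR (x * k) (x * k')) →
        ∃ k₁, InK k₁ ∧ ¬ RR (x * k₁) (x * x * k₁) := by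
      rintro x h1 ⟨k, k', hk, hk', h2⟩
      by_contra hcon
      push Not at hcon
      apply h2
      exact ((hcon k hk).trans (h1 k k' hk hk')).trans
        (RR.symm hB (hk'.left _) (hk'.left _) (hcon k' hk'))
    by_cases hA : ∀ k k', InK k → InK k' → RR (x * x * k) (x * x * k')
    · obtain ⟨k₁, h1, h2⟩ := key x hA ⟨k, k', hk, hk', hcon⟩
      exact ⟨x, k₁, h1, hA, h2⟩
    · push Not at hA
      obtain ⟨k, k', hk, hk', h⟩ := hA
      have hA' : ∀ k k', InK k → InK k' → RR (x * x * (x * x) * k) (x * x * (x * x) * k') := by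
        intro k k' hk hk'
        have hK : InK (x * x * (x * x)) := by
          rw [← mul_assoc]
          exact (h3 x x x).right x
        have h4 : RR (x * x * (x * x) * k) (x * x * (x * x)) := ⟨k, rfl⟩
        have h5 : RR (x * x * (x * x) * k') (x * x * (x * x)) := ⟨k', rfl⟩
        exact h4.trans (RR.symm hB (hK.right _) hK h5)
      obtain ⟨k₁, h1, h2⟩ := key (x * x) hA' ⟨k, k', hk, hk', h⟩
      exact ⟨x * x, k₁, h1, hA', h2⟩
  clear hcon hk hk' k k'
  have hxk : InK (x * k₁) := hk₁.left _
  have hxxk : InK (x * x * k₁) := hk₁.left _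
  -- words
  have hsec : ∀ {N : ℕ} (a b d : Fin N) (l l' : List (Fin N)), b ≠ d → b ≠ a →
      Sat M (of a * ⟨b, l⟩) (of a * ⟨d, l'⟩) → False := by
    intro N a b d l l' hbd hba huv
    let θ : Fin N → M := fun y => if y = a then x else if y = b then k₁ else x * k₁
    have ea : θ a = x := by simp [θ]
    have eb : θ b = k₁ := by simp [θ, hba]
    have huv := huv θ
    rw [map_mul, map_mul, lift_of, ea] at huv
    obtain ⟨h1, h2⟩ := RR.lift hB θ ⟨b, l⟩ (by rw [eb]; exact hk₁)
    simp only [eb] at h1
    have hU : InK (x * lift θ ⟨b, l⟩) := h2.left _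
    have hU1 : RR (x * lift θ ⟨b, l⟩) (x * k₁) := by
      obtain ⟨u, hu⟩ := h1
      exact ⟨u, by rw [hu, mul_assoc]⟩
    have hV : RR (x * lift θ ⟨b, l⟩) (x * x * k₁) := by
      by_cases hda : d = a
      · have hform : ∃ κ, InK κ ∧ x * lift θ ⟨b, l⟩ = x * x * κ := by
          obtain ⟨U, hUd⟩ : ∃ U, x * lift θ ⟨b, l⟩ = U := ⟨_, rfl⟩
          rw [hUd] at hU huv ⊢
          have hO : U * pw U c = U := hB.mul_om hU
          have hOm : InK (pw U c) := hB.om U
          rcases l' with _ | ⟨y, l'⟩
          · refine ⟨pw U c, hOm, ?_⟩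
            have e1 : lift θ (⟨d, []⟩ : Wd N) = x := by
              rw [hda]; exact ea
            rw [e1] at huv
            calc U = U * pw U c := hO.symm
              _ = x * x * pw U c := congrArg (· * pw U c) huv
          · refine ⟨lift θ ⟨y, l'⟩ * pw U c, hOm.left _, ?_⟩
            have e1 : (⟨d, y :: l'⟩ : Wd N) = of d * ⟨y, l'⟩ := rfl
            rw [e1, map_mul, lift_of, hda, ea] at huv
            calc U = U * pw U c := hO.symm
              _ = x * (x * lift θ ⟨y, l'⟩) * pw U c := congrArg (· * pw U c) huv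
              _ = x * x * (lift θ ⟨y, l'⟩ * pw U c) := by simp only [mul_assoc]
        obtain ⟨κ, hκ, he⟩ := hform
        rw [he]
        exact hxx κ k₁ hκ hk₁
      · have ed : θ d = x * k₁ := by simp [θ, hda, Ne.symm hbd]
        obtain ⟨h4, h5⟩ := RR.lift hB θ ⟨d, l'⟩ (by rw [ed]; exact hxk)
        simp only [ed] at h4
        obtain ⟨u, hu⟩ := h4
        exact ⟨u, by rw [huv, hu]; simp only [mul_assoc]⟩
    exact hne ((RR.symm hB hU hxk hU1).trans hV)
  have hnK : ¬ InK x := by
    intro hK
    have h4 : RR (x * k₁) x := ⟨k₁, rfl⟩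
    have h5 : RR (x * x * k₁) x := ⟨x * k₁, by rw [mul_assoc]⟩
    exact hne (h4.trans (RR.symm hB hxxk hK h5))
  have hone : ∀ {N : ℕ} (a b : Fin N) (l : List (Fin N)),
      Sat M (of a) (of a * ⟨b, l⟩) → False := by
    intro N a b l h
    have h1 := h fun _ => x
    obtain ⟨j, hj⟩ := lift_const (fun _ => x) x (⟨b, l⟩ : Wd N) fun _ _ => rfl
    rw [map_mul, lift_of, hj] at h1
    have h2 : ∀ i, x = x * pw (pw x j) i := by
      intro i
      induction i with
      | zero => exact h1
      | succ i ih =>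
        calc x = x * pw x j := h1
          _ = x * pw (pw x j) i * pw x j := by rw [← ih]
          _ = x * pw (pw x j) (i + 1) := by rw [pw_succ, mul_assoc]
    apply hnK
    rw [h2 c]
    exact (hB.om _).left _
  have hP : ∀ {N : ℕ} (u v : Wd N), Sat M u v →
      u.head = v.head ∧ u.tail.head? = v.tail.head? := by
    intro N u v huv
    have hhead : u.head = v.head := by
      by_contra hne'
      let θ : Fin N → M := fun y => if y = u.head then x * k₁ else x * x * k₁
      have eu : θ u.head = x * k₁ := by simp [θ]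
      have ev : θ v.head = x * x * k₁ := by simp [θ, Ne.symm hne']
      obtain ⟨h1, h2⟩ := RR.lift hB θ u (by rw [eu]; exact hxk)
      obtain ⟨h4, h5⟩ := RR.lift hB θ v (by rw [ev]; exact hxxk)
      rw [eu] at h1
      rw [ev, ← huv θ] at h4
      exact hne ((RR.symm hB h2 hxk h1).trans h4)
    refine ⟨hhead, ?_⟩
    obtain ⟨a, l⟩ := u
    obtain ⟨a', l'⟩ := v
    simp only at hhead
    subst hhead
    rcases l with _ | ⟨b, l⟩
    · rcases l' with _ | ⟨d, l'⟩
      · rfl
      · exact (hone a d l' huv).elim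
    · rcases l' with _ | ⟨d, l'⟩
      · exact (hone a b l huv.symm).elim
      · simp only [List.head?_cons, Option.some.injEq]
        by_contra hbd
        by_cases hba : b = a
        · have hda : d ≠ a := fun h => hbd (hba.trans h.symm)
          exact hsec a d b l' l (Ne.symm hbd) hda huv.symm
        · exact hsec a b d l l' hbd hba huv
  clear hsec hone
  -- first and second letters
  let m := D.m
  let lam : (∀ i, D.T i) → Fin (t + 3) := fun p => (D.W p).head
  let sec : (∀ i, D.T i) → Option (Fin (t + 3)) := fun p => (D.W p).tail.head?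
  have hlam : ∀ p q, lam (p * q) = lam p := fun p q => (hP _ _ (D.hW p q)).1
  have hsec0 : ∀ p q, sec p = none → sec (p * q) = some (lam q) := by
    intro p q h
    have h1 := (hP _ _ (D.hW p q)).2
    have h2 : (D.W p).tail = [] := List.head?_eq_none_iff.1 h
    change (D.W (p * q)).tail.head? = _
    rw [h1, tail_mul, h2]
    rfl
  have hsec1 : ∀ p q, sec p ≠ none → sec (p * q) = sec p := by
    intro p q h
    have h1 := (hP _ _ (D.hW p q)).2
    change (D.W (p * q)).tail.head? = (D.W p).tail.head?
    rw [h1, tail_mul]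
    have h2 : (D.W p).tail ≠ [] := fun h' => h (List.head?_eq_none_iff.2 h')
    obtain ⟨y, l, hl⟩ := List.exists_cons_of_ne_nil h2
    rw [hl]
    rfl
  have hlamm : ∀ x, lam (m x) = x := fun x => (hP _ _ (D.hm x)).1
  have hsecm : ∀ x, sec (m x) = none := fun x => (hP _ _ (D.hm x)).2
  have hmix : ∀ A (q v : ∀ i, D.T i), lam (mix A q (v * q)) = lam (mix A q v) := by
    intro A q v
    have e1 := hlam (mix A q (v * q)) (mix A q q)
    have e2 := hlam (mix A q v) (mix A q (q * q))
    rw [mix_mul] at e1 e2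
    rw [← e1, ← e2, mul_assoc]
  have hD1 : ∀ A (v : ∀ i, D.T i), (∀ q, lam (mix A q v) = lam q) ∨
      (∀ q, lam (mix A q v) = lam v) := by
    intro A v
    let x₀ : Fin (t + 3) := ⟨0, by omega⟩
    let s := mix A (m x₀) (m x₀ * v)
    have hs : ∀ q, sec (s * q) = some (lam (mix A q v)) := by
      intro q
      have e1 : s * q = m x₀ * mix A q (v * q) := by
        calc s * q = mix A (m x₀) (m x₀ * v) * mix A q q := by rw [mix_self]
          _ = mix A (m x₀) (m x₀) * mix A q (v * q) := by rw [mix_mul, mix_mul, mul_assoc]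
          _ = _ := by rw [mix_self]
      rw [e1, hsec0 _ _ (hsecm _), hmix]
    by_cases h : sec s = none
    · left
      intro q
      have h1 := hs q
      rw [hsec0 s q h] at h1
      exact (Option.some.inj h1).symm
    · right
      intro q
      have h1 := hs q
      have h2 := hs v
      rw [hsec1 s _ h] at h1 h2
      rw [mix_self] at h2
      rw [h1] at h2
      exact Option.some.inj h2
  have hD2 : ∀ A (v : ∀ i, D.T i), (∀ q, lam (mix A v q) = lam q) ∨
      (∀ q, lam (mix A v q) = lam v) := by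
    intro A v
    have := hD1 Aᶜ v
    simpa only [mix_compl] using this
  have hdict : ∀ A, (∀ q v, lam (mix A q v) = lam q) ∨ (∀ q v, lam (mix A q v) = lam v) := by
    intro A
    by_cases h : ∀ v q, lam (mix A q v) = lam v
    · right; exact fun q v => h v q
    · left
      push Not at h
      obtain ⟨v₀, q₀, hv₀⟩ := h
      have h1 : ∀ q, lam (mix A q v₀) = lam q := (hD1 A v₀).resolve_right fun h => hv₀ (h q₀)
      have h2 : ∀ q, lam q ≠ lam v₀ → ∀ v, lam (mix A q v) = lam q := by
        intro q hq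
        refine (hD2 A q).resolve_left fun h => hq ?_
        rw [← h v₀, h1]
      intro q v
      refine (hD1 A v).resolve_right (fun h => ?_) q
      obtain ⟨a, ha⟩ := exists_letter [lam v₀] (by simp)
      simp only [List.mem_cons, List.not_mem_nil, or_false] at ha
      obtain ⟨b, hb⟩ := exists_letter [lam v₀, a] (by simp)
      simp only [List.mem_cons, List.not_mem_nil, or_false, not_or] at hb
      have e1 := h2 (m a) (by rw [hlamm]; exact ha) v
      have e2 := h2 (m b) (by rw [hlamm]; exact hb.1) v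
      rw [h, hlamm] at e1 e2
      exact hb.2 (e2.symm.trans e1)
  obtain ⟨a, ha⟩ := exists_letter ([] : List (Fin (t + 3))) (by simp)
  obtain ⟨b, hb⟩ := exists_letter [a] (by simp)
  simp only [List.mem_cons, List.not_mem_nil, or_false] at hb
  obtain ⟨A, l, hl, hA, hA'⟩ := exists_switch (fun A => ∀ q v, lam (mix A q v) = lam q)
    (fun h => by
      have := h (m a) (m b)
      rw [mix_empty, hlamm, hlamm] at this
      exact hb this)
    (fun q v => by rw [mix_univ])
  have hA2 := (hdict A).resolve_left hA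
  have hfac : ∀ p p' : ∀ i, D.T i, p l = p' l → lam p = lam p' := by
    intro p p' h
    have e : mix (insert l A) p p' = mix A p p' := by
      funext i
      simp only [mix, Finset.mem_insert]
      by_cases hi : i = l
      · subst hi
        simp [hl, h]
      · simp [hi]
    rw [← hA' p p', e, hA2]
  obtain ⟨y, y', hyy', hcol⟩ := exists_coll (D.card l) (show t < t + 3 by omega)
    fun y => m y l
  apply hyy'
  rw [← hlamm y, ← hlamm y']
  exact hfac _ _ hcol

/-- The dual statement. -/
def LL {M : Type} [Semigroup M] (s s' : M) : Prop := ∃ u, s = u * s'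

theorem step3' {t c : ℕ} {M : Type} [Semigroup M] (hB : Base M c)
    (h3 : ∀ a b d : M, InK (a * b * d)) (D : MixData t M (t + 3)) (x k k' : M) (hk : InK k)
    (hk' : InK k') : LL (k * x) (k' * x) := by
  have h := step3 (t := t) hB.op (fun a b d => by
    have := (h3 d.unop b.unop a.unop).op
    rwa [mul_assoc, MulOpposite.op_mul, MulOpposite.op_mul, MulOpposite.op_unop,
      MulOpposite.op_unop, MulOpposite.op_unop] at this) D.op
    (MulOpposite.op x) (MulOpposite.op k) (MulOpposite.op k') hk.op hk'.op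
  obtain ⟨u, hu⟩ := h
  refine ⟨u.unop, ?_⟩
  have := congrArg MulOpposite.unop hu
  simpa using this

end Pool.Agent.Lib.MP_88bd66_lc
end

section

/-!
The subgroups are abelian.
-/

set_option autoImplicit false

namespace Pool.Agent.Lib.MP_88bd66_lc

open FreeSemigroup

/-! ### Nonabelian groups have a noncentral commutative subgroup normalized by an element -/

section

variable {G : Type} [Group G] [Finite G]

/-- The configuration that is used. -/
def Conf (G : Type) [Group G] : Prop :=
  ∃ (B : Subgroup G) (a b : G), (∀ x ∈ B, ∀ y ∈ B, x * y = y * x) ∧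
    a ∈ Subgroup.normalizer (B : Set G) ∧ b ∈ B ∧ a * b ≠ b * a

theorem conf_of_nilpotent [Group.IsNilpotent G] (h : ∃ x y : G, x * y ≠ y * x) : Conf G := by
  let F : Set (Subgroup G) := {B | ∀ x ∈ B, ∀ y ∈ B, x * y = y * x}
  have hne : F.Nonempty := ⟨⊥, by
    intro x hx y hy
    rw [Subgroup.mem_bot.1 hx, Subgroup.mem_bot.1 hy]⟩
  obtain ⟨B, hB⟩ := (Set.toFinite F).exists_maximal hne
  have hBF : ∀ x ∈ B, ∀ y ∈ B, x * y = y * x := hB.prop
  have hB1 : B ≠ ⊤ := by
    rintro rfl
    obtain ⟨x, y, hxy⟩ := h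
    exact hxy (hBF x (Subgroup.mem_top _) y (Subgroup.mem_top _))
  have hnc := (normalizerCondition_iff_only_full_group_self_normalizing).1
    (Group.normalizerCondition_of_isNilpotent (G := G))
  have hne2 : Subgroup.normalizer (B : Set G) ≠ B := fun h => hB1 (hnc B h)
  have hlt : B < Subgroup.normalizer (B : Set G) :=
    lt_of_le_of_ne Subgroup.le_normalizer (Ne.symm hne2)
  obtain ⟨a, ha, haB⟩ := SetLike.exists_of_lt hlt
  by_cases hcen : ∃ b ∈ B, a * b ≠ b * a
  · obtain ⟨b, hb, hab⟩ := hcen
    exact ⟨B, a, b, hBF, ha, hb, hab⟩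
  · exfalso
    push Not at hcen
    have hcl := Subgroup.isMulCommutative_closure (k := (B : Set G) ∪ {a}) (by
      rintro x (hx | hx) y (hy | hy)
      · exact hBF x hx y hy
      · rw [Set.mem_singleton_iff.1 hy]; exact (hcen x hx).symm
      · rw [Set.mem_singleton_iff.1 hx]; exact hcen y hy
      · rw [Set.mem_singleton_iff.1 hx, Set.mem_singleton_iff.1 hy])
    have hin : Subgroup.closure ((B : Set G) ∪ {a}) ∈ F := by
      intro x hx y hy
      exact setLike_mul_comm hx hy
    have hle : B ≤ Subgroup.closure ((B : Set G) ∪ {a}) := fun x hx =>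
      Subgroup.subset_closure (Or.inl hx)
    have := hB.2 hin hle
    exact haB (this (Subgroup.subset_closure (Or.inr rfl)))

theorem exists_conf (h : ∃ x y : G, x * y ≠ y * x) : Conf G := by
  by_cases h1 : ∃ (p : ℕ) (_ : Fact p.Prime) (P : Sylow p G), ∃ x y : P, x * y ≠ y * x
  · obtain ⟨p, hp, P, hxy⟩ := h1
    have := P.isPGroup'.isNilpotent
    obtain ⟨B, a, b, h1, h2, h3, h4⟩ := conf_of_nilpotent hxy
    refine ⟨B.map (P : Subgroup G).subtype, a.1, b.1, ?_, ?_,
      Subgroup.mem_map_of_mem (P : Subgroup G).subtype h3, ?_⟩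
    · rintro _ ⟨x, hx, rfl⟩ _ ⟨y, hy, rfl⟩
      rw [← map_mul, h1 x hx y hy, map_mul]
    · exact Subgroup.le_normalizer_map _ ⟨a, h2, rfl⟩
    · intro h
      apply h4
      exact Subtype.ext h
  push Not at h1
  by_cases h2 : ∃ (p : ℕ) (_ : Fact p.Prime) (P : Sylow p G),
      ¬ Subgroup.normalizer (P : Set G) ≤ Subgroup.centralizer (P : Set G)
  · obtain ⟨p, hp, P, hP⟩ := h2
    obtain ⟨a, ha, haC⟩ := SetLike.not_le_iff_exists.1 hP
    rw [Subgroup.mem_centralizer_iff] at haC
    push Not at haC
    obtain ⟨b, hb, hab⟩ := haC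
    refine ⟨P, a, b, fun x hx y hy => ?_, ha, hb, fun h => hab h.symm⟩
    exact congrArg Subtype.val (h1 p hp P ⟨x, hx⟩ ⟨y, hy⟩)
  push Not at h2
  exfalso
  obtain ⟨x, y, hxy⟩ := h
  obtain ⟨g, hg⟩ : ∃ g, x * y * x⁻¹ * y⁻¹ = g := ⟨_, rfl⟩
  have hg1 : g ≠ 1 := by
    intro h
    apply hxy
    rw [h] at hg
    have : x * y = y * x := by
      calc x * y = (x * y * x⁻¹ * y⁻¹) * (y * x) := by group
        _ = y * x := by rw [hg, one_mul]
    exact this
  have hord : orderOf g ≠ 1 := by rwa [Ne, orderOf_eq_one_iff]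
  obtain ⟨p, hp, hpd⟩ := Nat.exists_prime_and_dvd hord
  have hpf : Fact p.Prime := ⟨hp⟩
  obtain ⟨P⟩ : Nonempty (Sylow p G) := inferInstance
  have hP := h2 p hpf P
  have hker : g ∈ (MonoidHom.transferSylow P hP).ker := by
    rw [MonoidHom.mem_ker, ← hg, map_mul, map_mul, map_mul, map_inv, map_inv]
    have hc : ∀ u v : P, u * v = v * u := h1 p hpf P
    rw [hc (MonoidHom.transferSylow P hP x) (MonoidHom.transferSylow P hP y)]
    group
  have h3 := MonoidHom.not_dvd_card_ker_transferSylow P hP
  apply h3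
  have h4 : orderOf (⟨g, hker⟩ : (MonoidHom.transferSylow P hP).ker) ∣
      Nat.card (MonoidHom.transferSylow P hP).ker := orderOf_dvd_natCard _
  rw [Subgroup.orderOf_mk] at h4
  exact hpd.trans h4

end

/-! ### Nonabelian groups are excluded -/

/-- The subgroup `⟨ā⟩ B ^ m`. -/
def diagSub {G : Type} [Group G] (B : Subgroup G) (a : G)
    (ha : a ∈ Subgroup.normalizer (B : Set G)) (m : ℕ) : Subgroup (Fin m → G) where
  carrier := {h | ∃ r : ℤ, ∀ j, h j * (a ^ r)⁻¹ ∈ B}
  one_mem' := ⟨0, fun j => by simp [B.one_mem]⟩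
  mul_mem' := by
    rintro h h' ⟨r, hr⟩ ⟨s, hs⟩
    refine ⟨r + s, fun j => ?_⟩
    have har : a ^ r ∈ Subgroup.normalizer (B : Set G) := Subgroup.zpow_mem _ ha r
    have e : (h * h') j * (a ^ (r + s))⁻¹ =
        (h j * (a ^ r)⁻¹) * (a ^ r * (h' j * (a ^ s)⁻¹) * (a ^ r)⁻¹) := by
      rw [Pi.mul_apply, zpow_add]
      group
    rw [e]
    exact B.mul_mem (hr j) ((Subgroup.mem_normalizer_iff.1 har _).1 (hs j))
  inv_mem' := by
    rintro h ⟨r, hr⟩
    refine ⟨-r, fun j => ?_⟩
    have har : a ^ (-r) ∈ Subgroup.normalizer (B : Set G) := Subgroup.zpow_mem _ ha (-r)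
    have e : h⁻¹ j * (a ^ (-r))⁻¹ = a ^ (-r) * (h j * (a ^ r)⁻¹)⁻¹ * (a ^ (-r))⁻¹ := by
      rw [Pi.inv_apply]
      group
    rw [e]
    exact (Subgroup.mem_normalizer_iff.1 har _).1 (B.inv_mem (hr j))

theorem group_comm {t : ℕ} (ht : 1 ≤ t) {M : Type} [Semigroup M] (hyp : Hyp t M) {G : Type}
    [Group G] [Finite G] (hG : IdLe M G) (x y : G) : x * y = y * x := by
  by_contra hxy
  obtain ⟨B, a, b, hB, ha, hb, hab⟩ := exists_conf ⟨x, y, hxy⟩
  clear hxy x y
  have hBb : ∀ β ∈ B, ∀ g : G, (β * g) * b = b * (β * g) → g * b = b * g := by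
    intro β hβ g h
    have h1 := hB β hβ b hb
    have h2 : β * (g * b) = β * (b * g) := by
      rw [← mul_assoc, h, ← mul_assoc, ← mul_assoc, h1]
    exact mul_left_cancel h2
  have hBb' : ∀ β ∈ B, ∀ g : G, g * b = b * g → (β * g) * b = b * (β * g) := by
    intro β hβ g h
    rw [mul_assoc, h, ← mul_assoc, hB β hβ b hb, mul_assoc]
  let D := diagSub B a ha (t + 1)
  have hD : IdLe M D := by
    refine IdLe.trans (idLe_pi (fun _ : Fin (t + 1) => G) fun _ => hG) ?_
    exact idLe_of_inj (D.subtype : D →ₙ* (Fin (t + 1) → G)) Subtype.val_injective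
  obtain ⟨k, T, sg, fin, card, f, hf⟩ := hyp D inferInstance inferInstance inferInstance hD
  obtain ⟨q₀, hq₀⟩ := hf 1
  obtain ⟨ε, hε⟩ : ∃ ε, pw q₀ (t.factorial - 1) = ε := ⟨_, rfl⟩
  have hεε : ε * ε = ε := by
    rw [← hε]
    funext i
    rw [Pi.mul_apply, pw_pi]
    exact om_idem (card i) ht _
  have hfε : f ε = 1 := by
    rw [← hε, pw_map, hq₀]
    exact Base.pow_idem (mul_one 1) _
  let ad : D := ⟨fun _ => a, 1, fun j => by simp [B.one_mem]⟩
  obtain ⟨pa, hpa⟩ := hf ad
  obtain ⟨p', hp'⟩ : ∃ p', ε * pa * ε = p' := ⟨_, rfl⟩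
  have hp1 : f p' = ad := by rw [← hp', map_mul, map_mul, hfε, hpa, one_mul, mul_one]
  have hp2 : ε * p' = p' := by rw [← hp', ← mul_assoc, ← mul_assoc, hεε]
  have hp3 : p' * ε = p' := by rw [← hp', mul_assoc, hεε]
  -- some coordinate acts nontrivially
  obtain ⟨l, hl⟩ : ∃ l, (f (mix {l} p' ε)).1 0 * b ≠ b * (f (mix {l} p' ε)).1 0 := by
    by_contra hcon
    push Not at hcon
    have hA : ∀ A : Finset (Fin k), (f (mix A p' ε)).1 0 * b = b * (f (mix A p' ε)).1 0 := by
      intro A
      induction A using Finset.induction_on with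
      | empty =>
        rw [mix_empty, hfε]
        simp
      | insert l A hlA ih =>
        have e : mix (insert l A) p' ε = mix A p' ε * mix {l} p' ε := by
          funext i
          have e1 := congrFun hp2 i
          have e2 := congrFun hp3 i
          have e3 := congrFun hεε i
          simp only [Pi.mul_apply] at e1 e2 e3
          simp only [mix, Finset.mem_insert, Finset.mem_singleton, Pi.mul_apply]
          by_cases hi : i = l
          · subst hi
            simp [hlA, e1]
          · by_cases hiA : i ∈ A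
            · simp [hi, hiA, e2]
            · simp [hi, hiA, e3]
        rw [e, map_mul]
        have e1 := hcon l
        change ((f (mix A p' ε)).1 0 * (f (mix {l} p' ε)).1 0) * b =
          b * ((f (mix A p' ε)).1 0 * (f (mix {l} p' ε)).1 0)
        rw [mul_assoc, e1, ← mul_assoc, ih, mul_assoc]
    have := hA Finset.univ
    rw [mix_univ, hp1] at this
    exact hab this
  obtain ⟨d, hd⟩ : ∃ d, f (mix {l} p' ε) = d := ⟨_, rfl⟩
  rw [hd] at hl
  obtain ⟨r, hr⟩ := d.2
  have hdj : ∀ j, d.1 j * b ≠ b * d.1 j := by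
    have hform : ∀ j, d.1 j = (d.1 j * (a ^ r)⁻¹) * a ^ r := fun j => by group
    intro j h
    rw [hform j] at h
    have h1 := hBb _ (hr j) _ h
    apply hl
    rw [hform 0]
    exact hBb' _ (hr 0) _ h1
  -- the elements b_j
  have hbj : ∀ j : Fin (t + 1), ∃ q, f q = (⟨Pi.mulSingle j b, 0, fun i => by
      by_cases hi : i = j
      · subst hi; simp [hb]
      · simp [Pi.mulSingle_eq_of_ne hi, B.one_mem]⟩ : D) := fun j => hf _
  choose q hq using hbj
  obtain ⟨q', hq'⟩ : ∃ q' : Fin (t + 1) → ∀ i, T i, ∀ j, q' j = ε * q j * ε := ⟨_, fun _ => rfl⟩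
  have hq1 : ∀ j, f (q' j) = f (q j) := fun j => by
    rw [hq', map_mul, map_mul, hfε, one_mul, mul_one]
  have hq2 : ∀ j, ε * q' j = q' j := fun j => by rw [hq', ← mul_assoc, ← mul_assoc, hεε]
  have hq3 : ∀ j, q' j * ε = q' j := fun j => by rw [hq', mul_assoc, hεε]
  obtain ⟨j, j', hjj, hcol⟩ := exists_coll (card l) (Nat.lt_succ_self t) fun j => q' j l
  have hdec : ∀ j, f (q' j) = f (mix {l} (q' j) ε) * f (mix {l} ε (q' j)) := by
    intro j
    rw [← map_mul, mix_mul, hq2, hq3, mix_self]
  have hcm : ∀ j, d * f (mix {l} ε (q' j)) = f (mix {l} ε (q' j)) * d := by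
    intro j
    rw [← hd, ← map_mul, ← map_mul, mix_mul, mix_mul, hq2, hq3, hp2, hp3]
  have hu : f (mix {l} (q' j) ε) = f (mix {l} (q' j') ε) := by
    congr 1
    funext i
    simp only [mix, Finset.mem_singleton]
    by_cases hi : i = l
    · subst hi
      simpa using hcol
    · simp [hi]
  have hcomm : d * ((f (q' j))⁻¹ * f (q' j')) = (f (q' j))⁻¹ * f (q' j') * d := by
    have e : (f (q' j))⁻¹ * f (q' j') = (f (mix {l} ε (q' j)))⁻¹ * f (mix {l} ε (q' j')) := by
      rw [hdec j, hdec j', hu]
      group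
    rw [e]
    have h1 : Commute d (f (mix {l} ε (q' j)))⁻¹ := Commute.inv_right (hcm j)
    have h2 : Commute d (f (mix {l} ε (q' j'))) := hcm j'
    exact (h1.mul_right h2)
  rw [hq1, hq1, hq, hq] at hcomm
  have h5 := congrFun (congrArg Subtype.val hcomm) j
  have h6 : d.1 j * (b⁻¹ * 1) = b⁻¹ * 1 * d.1 j := by
    have e1 : ((Pi.mulSingle j b : Fin (t + 1) → G) j) = b := Pi.mulSingle_eq_same _ _
    have e2 : ((Pi.mulSingle j' b : Fin (t + 1) → G) j) = 1 := Pi.mulSingle_eq_of_ne hjj _
    simp only [Subgroup.coe_mul, Subgroup.coe_inv, Pi.mul_apply, Pi.inv_apply, e1, e2] at h5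
    exact h5
  apply hdj j
  rw [mul_one] at h6
  have h7 : Commute (d.1 j) b⁻¹ := h6
  exact (Commute.inv_right_iff.1 h7)

/-! ### Local groups -/

/-- The local subgroup of an idempotent. -/
abbrev Loc {M : Type} [Semigroup M] (e : M) : Type := {s : M // e * s = s ∧ s * e = s}

/-- The group structure. -/
@[reducible] def locGroup {M : Type} [Semigroup M] {c : ℕ} (hB : Base M c) {e : M} (he : e * e = e) :
    Group (Loc e) where
  mul := fun s s' => ⟨s.1 * s'.1, by rw [← mul_assoc, s.2.1], by rw [mul_assoc, s'.2.2]⟩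
  mul_assoc := fun s s' s'' => Subtype.ext (mul_assoc _ _ _)
  one := ⟨e, he, he⟩
  one_mul := fun s => Subtype.ext s.2.1
  mul_one := fun s => Subtype.ext s.2.2
  inv := fun s => ⟨pw s.1 (2 * c), by
    cases c with
    | zero => exact s.2.1
    | succ c => rw [show 2 * (c + 1) = 2 * c + 1 + 1 by ring, pw_succ', ← mul_assoc, s.2.1], by
    cases c with
    | zero => exact s.2.2
    | succ c => rw [show 2 * (c + 1) = 2 * c + 1 + 1 by ring, pw_succ, mul_assoc, s.2.2]⟩
  inv_mul_cancel := fun s => Subtype.ext (by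
    change pw s.1 (2 * c) * s.1 = e
    rw [← pw_succ, show 2 * c + 1 = c + c + 1 by ring, ← pw_add, hB.group he s.2.1 s.2.2, he])

theorem step4 {t c : ℕ} (ht : 1 ≤ t) {M : Type} [Semigroup M] [Finite M] (hyp : Hyp t M)
    (hB : Base M c) {e s s' : M} (he : e * e = e) (h1 : e * s = s) (h2 : s * e = s)
    (h3 : e * s' = s') (h4 : s' * e = s') : s * s' = s' * s := by
  let _ := locGroup hB he
  let ι : Loc e →ₙ* M := ⟨fun s => s.1, fun _ _ => rfl⟩
  have hle : IdLe M (Loc e) := idLe_of_inj ι Subtype.val_injective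
  have := group_comm ht hyp hle ⟨s, h1, h2⟩ ⟨s', h3, h4⟩
  exact congrArg Subtype.val this

end Pool.Agent.Lib.MP_88bd66_lc
end
end
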